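import Mathlib

/-!
Basic notions for the study of the binary partition sequence modulo a prime:
two-parameter arrays with the self-similar recursion (`Str`), limits of such arrays
(`Lim`), and the sequence `a n = b_2 (2 n)` itself.
-/

namespace Pool.Agent.helper41.BP

open Filter

/-- `a n = b_2 (2 n)`. -/
def a : ℕ → ℕ
  | 0 => 1
  | (n + 1) => a n + a ((n + 1) / 2)
decreasing_by
  all_goals omega

theorem a_zero : a 0 = 1 := by rw [a]

theorem a_succ (n : ℕ) : a (n + 1) = a n + a ((n + 1) / 2) := by rw [a]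

/-- the self-similar recursion -/
def Str {V : Type*} [Add V] (u : ℕ → ℕ → V) : Prop :=
  ∀ l n, u l (n + 1) = u l n + u (l + 1) ((n + 1) / 2)

/-- `v` is a limit of `u` -/
def Lim {V : Type*} (u v : ℕ → ℕ → V) : Prop :=
  ∀ N, ∃ m, 1 ≤ m ∧ ∀ l ≤ N, ∀ n ≤ N, v l n = u l (2 ^ (N - l) * m + n)

theorem Lim.map {V W : Type*} {u v : ℕ → ℕ → V} (h : Lim u v) (π : V → W) :
    Lim (fun l n => π (u l n)) (fun l n => π (v l n)) := by
  intro N
  obtain ⟨m, hm, h1⟩ := h N
  exact ⟨m, hm, fun l hl n hn => by simp only [h1 l hl n hn]⟩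

theorem two_pow_split {N l : ℕ} (M : ℕ) (hl : l ≤ N) (hN : N ≤ M) :
    2 ^ (M - l) = 2 ^ (N - l) * 2 ^ (M - N) := by
  rw [← pow_add]; congr 1; omega

theorem le_two_pow (n : ℕ) : n + 1 ≤ 2 ^ n := Nat.lt_two_pow_self

/-- A version of `Lim` with arbitrarily large parameter. -/
theorem Lim.large {V : Type*} {u v : ℕ → ℕ → V} (h : Lim u v) (N K : ℕ) :
    ∃ m, K ≤ m ∧ 1 ≤ m ∧ ∀ l ≤ N, ∀ n ≤ N, v l n = u l (2 ^ (N - l) * m + n) := by
  obtain ⟨m, hm, h1⟩ := h (N + K)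
  refine ⟨2 ^ K * m, ?_, ?_, ?_⟩
  · calc K ≤ 2 ^ K := (Nat.le_succ _).trans (le_two_pow K)
      _ ≤ 2 ^ K * m := Nat.le_mul_of_pos_right _ hm
  · exact Nat.mul_pos (by positivity) hm
  · intro l hl n hn
    rw [h1 l (by omega) n (by omega), two_pow_split (N := N) (N + K) hl (by omega)]
    congr 2
    rw [mul_assoc]
    congr 3
    omega

theorem Lim.trans {V : Type*} {u v w : ℕ → ℕ → V} (h : Lim u v) (h' : Lim v w) :
    Lim u w := by
  intro N
  obtain ⟨m', hm', h1'⟩ := h' N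
  obtain ⟨m, hm, h1⟩ := h (N + 2 ^ N * m' + N)
  refine ⟨2 ^ (2 ^ N * m' + N) * m + m', by omega, ?_⟩
  intro l hl n hn
  have h2 : 2 ^ (N - l) * m' ≤ 2 ^ N * m' :=
    Nat.mul_le_mul_right _ (Nat.pow_le_pow_right (by norm_num) (by omega))
  rw [h1' l hl n hn, h1 l (by omega) _ (by omega),
    two_pow_split (N := N) (N + 2 ^ N * m' + N) hl (by omega)]
  congr 1
  have : N + 2 ^ N * m' + N - N = 2 ^ N * m' + N := by omega
  rw [this]
  ring

theorem Lim.str {V : Type*} [Add V] {u v : ℕ → ℕ → V} (h : Lim u v) (hu : Str u) : Str v := by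
  intro l n
  obtain ⟨m, hm, h1⟩ := h (l + n + 1)
  rw [h1 l (by omega) (n + 1) (by omega), h1 l (by omega) n (by omega),
    h1 (l + 1) (by omega) ((n + 1) / 2) (by omega), ← add_assoc, hu]
  congr 2
  have e1 : l + n + 1 - l = n + 1 := by omega
  have e2 : l + n + 1 - (l + 1) = n := by omega
  rw [e1, e2, pow_succ]
  have : 2 ^ n * 2 * m + n + 1 = 2 * (2 ^ n * m) + (n + 1) := by ring
  rw [this, Nat.mul_add_div (by norm_num)]

/-- values on the class, all levels -/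
def Cs {V : Type*} (u : ℕ → ℕ → V) : Set V := {c | ∃ l k, u l (4 * k + 2) = c}

/-- values on the class, level zero -/
def Bs {V : Type*} (u : ℕ → ℕ → V) : Set V := {c | ∃ k, u 0 (4 * k + 2) = c}

theorem Lim.class_pos {V : Type*} {u v : ℕ → ℕ → V} (h : Lim u v) (l k K : ℕ) :
    ∃ k', K ≤ k' ∧ v l (4 * k + 2) = u l (4 * k' + 2) := by
  obtain ⟨m, hm, hm1, h1⟩ := h.large (l + (4 * k + 2) + 2) K
  refine ⟨2 ^ (4 * k + 2) * m + k, ?_, ?_⟩
  · have : m ≤ 2 ^ (4 * k + 2) * m := Nat.le_mul_of_pos_left _ (by positivity)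
    omega
  · rw [h1 l (by omega) _ (by omega)]
    congr 1
    have e1 : l + (4 * k + 2) + 2 - l = (4 * k + 2) + 2 := by omega
    rw [e1, pow_add]
    ring

theorem Lim.Cs_subset {V : Type*} {u v : ℕ → ℕ → V} (h : Lim u v) : Cs v ⊆ Cs u := by
  rintro c ⟨l, k, rfl⟩
  obtain ⟨k', -, hk'⟩ := h.class_pos l k 0
  exact ⟨l, k', hk'.symm⟩

theorem Lim.Bs_subset {V : Type*} {u v : ℕ → ℕ → V} (h : Lim u v) : Bs v ⊆ Bs u := by
  rintro c ⟨k, rfl⟩
  obtain ⟨k', -, hk'⟩ := h.class_pos 0 k 0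
  exact ⟨k', hk'.symm⟩

/-- stable arrays -/
def Stable {V : Type*} (u : ℕ → ℕ → V) : Prop :=
  ∀ v, Lim u v → Cs v = Cs u ∧ Bs v = Bs u

theorem Stable.lim {V : Type*} {u v : ℕ → ℕ → V} (hu : Stable u) (h : Lim u v) : Stable v := by
  intro w hw
  have h1 := hu v h
  have h2 := hu w (h.trans hw)
  exact ⟨h2.1.trans h1.1.symm, h2.2.trans h1.2.symm⟩

/-! ### ultrafilter limits -/

theorem exists_ulim {V : Type*} [Finite V] (u : ℕ → ℕ → V) (m : ℕ → ℕ) (l n : ℕ) :
    ∃ x : V, ∀ᶠ N in (hyperfilter ℕ : Filter ℕ), x = u l (2 ^ (N - l) * m N + n) := by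
  rw [← Ultrafilter.eventually_exists_iff]
  exact Eventually.of_forall fun N => ⟨_, rfl⟩

/-- the ultrafilter limit of `u` along positions `m N` of level `N` -/
noncomputable def ulim {V : Type*} [Finite V] (u : ℕ → ℕ → V) (m : ℕ → ℕ) : ℕ → ℕ → V :=
  fun l n => (exists_ulim u m l n).choose

theorem ulim_spec {V : Type*} [Finite V] (u : ℕ → ℕ → V) (m : ℕ → ℕ) (l n : ℕ) :
    ∀ᶠ N in (hyperfilter ℕ : Filter ℕ), ulim u m l n = u l (2 ^ (N - l) * m N + n) :=
  (exists_ulim u m l n).choose_spec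

theorem eventually_ge_hyper (K : ℕ) : ∀ᶠ N in (hyperfilter ℕ : Filter ℕ), K ≤ N := by
  have : ∀ᶠ N in atTop, K ≤ N := eventually_ge_atTop K
  exact (Nat.hyperfilter_le_atTop) this

theorem lim_ulim {V : Type*} [Finite V] (u : ℕ → ℕ → V) (m : ℕ → ℕ) (hm : ∀ N, 1 ≤ m N) :
    Lim u (ulim u m) := by
  intro N
  have h1 : ∀ᶠ M in (hyperfilter ℕ : Filter ℕ), ∀ l ∈ Finset.range (N + 1),
      ∀ n ∈ Finset.range (N + 1), ulim u m l n = u l (2 ^ (M - l) * m M + n) := by
    rw [Filter.eventually_all_finset]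
    intro l _
    rw [Filter.eventually_all_finset]
    intro n _
    exact ulim_spec u m l n
  obtain ⟨M, hM, hNM⟩ := (h1.and (eventually_ge_hyper N)).exists
  refine ⟨2 ^ (M - N) * m M, Nat.mul_pos (by positivity) (hm M), ?_⟩
  intro l hl n hn
  rw [hM l (Finset.mem_range.2 (by omega)) n (Finset.mem_range.2 (by omega)),
    two_pow_split (N := N) M hl hNM, mul_assoc]

/-- existence of stable limits -/
theorem exists_stable {V : Type*} [Finite V] (u : ℕ → ℕ → V) : ∃ v, Lim u v ∧ Stable v := by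
  classical
  let S : Set ℕ := {k | ∃ v, Lim u v ∧ (Cs v).ncard + (Bs v).ncard = k}
  have hS : S.Nonempty := ⟨_, ulim u (fun _ => 1), lim_ulim u _ (fun _ => le_refl _), rfl⟩
  obtain ⟨v, hv, hvk⟩ := Nat.sInf_mem hS
  refine ⟨v, hv, fun w hw => ?_⟩
  have h1 : sInf S ≤ (Cs w).ncard + (Bs w).ncard := Nat.sInf_le ⟨w, hv.trans hw, rfl⟩
  have h2 : (Cs w).ncard ≤ (Cs v).ncard := Set.ncard_le_ncard hw.Cs_subset (Set.toFinite _)
  have h3 : (Bs w).ncard ≤ (Bs v).ncard := Set.ncard_le_ncard hw.Bs_subset (Set.toFinite _)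
  exact ⟨Set.eq_of_subset_of_ncard_le hw.Cs_subset (by omega) (Set.toFinite _),
    Set.eq_of_subset_of_ncard_le hw.Bs_subset (by omega) (Set.toFinite _)⟩

/-! ### recursion lemmas -/

theorem str_zero {V : Type*} [AddMonoid V] {D : ℕ → ℕ → V} (hD : Str D)
    (h0 : ∀ l, D l 0 = 0) : ∀ n l, D l n = 0 := by
  intro n
  induction n using Nat.strong_induction_on with
  | _ n ih =>
    intro l
    rcases n with _ | n
    · exact h0 l
    · rw [hD, ih n (by omega), ih ((n + 1) / 2) (by omega), add_zero]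

/-- shift lemma -/
theorem shift_zero {V : Type*} [AddMonoid V] {A : ℕ → ℕ → V} {N : ℕ}
    (hA : ∀ l < N, ∀ n, A l (n + 1) = A l n + A (l + 1) ((n + 1) / 2))
    (h0 : ∀ l ≤ N, A l 0 = 0) : ∀ n, ∀ l ≤ N, n < 2 ^ (N - l) → A l n = 0 := by
  intro n
  induction n using Nat.strong_induction_on with
  | _ n ih =>
    intro l hl hn
    rcases n with _ | n
    · exact h0 l hl
    · have hlN : l < N := by
        rcases Nat.lt_or_ge l N with h | h
        · exact h
        · have : N - l = 0 := by omega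
          rw [this] at hn
          simp at hn
      have e : 2 ^ (N - l) = 2 ^ (N - (l + 1)) * 2 := by
        rw [← pow_succ]; congr 1; omega
      rw [hA l hlN, ih n (by omega) l hl (by omega),
        ih ((n + 1) / 2) (by omega) (l + 1) (by omega) (by omega), add_zero]

theorem shift_next {V : Type*} [AddMonoid V] {A : ℕ → ℕ → V} {N : ℕ}
    (hA : ∀ l < N, ∀ n, A l (n + 1) = A l n + A (l + 1) ((n + 1) / 2))
    (h0 : ∀ l ≤ N, A l 0 = 0) : ∀ j ≤ N, A (N - j) (2 ^ j) = A N 1 := by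
  intro j
  induction j with
  | zero => intro _; simp
  | succ j ih =>
    intro hj
    have h1 := hA (N - (j + 1)) (by omega) (2 ^ (j + 1) - 1)
    have hpos : 1 ≤ 2 ^ (j + 1) := Nat.one_le_two_pow
    have e : 2 ^ (j + 1) - 1 + 1 = 2 ^ (j + 1) := Nat.sub_add_cancel hpos
    have e2 : 2 ^ (j + 1) / 2 = 2 ^ j := by rw [pow_succ]; omega
    have e3 : N - (j + 1) + 1 = N - j := by omega
    have h2 : A (N - (j + 1)) (2 ^ (j + 1) - 1) = 0 := by
      apply shift_zero hA h0 _ _ (by omega)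
      have : N - (N - (j + 1)) = j + 1 := by omega
      rw [this]
      omega
    rw [e, e2, e3, ih (by omega), h2, zero_add] at h1
    exact h1

theorem Str.shift {V : Type*} [Add V] {D : ℕ → ℕ → V} (hD : Str D) (N m : ℕ) :
    ∀ l < N, ∀ n, D l (2 ^ (N - l) * m + (n + 1)) =
      D l (2 ^ (N - l) * m + n) + D (l + 1) (2 ^ (N - (l + 1)) * m + (n + 1) / 2) := by
  intro l hl n
  have e : 2 ^ (N - l) * m = 2 * (2 ^ (N - (l + 1)) * m) := by
    have : N - l = N - (l + 1) + 1 := by omega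
    rw [this, pow_succ]; ring
  rw [← add_assoc, hD, e, add_assoc _ n 1, Nat.mul_add_div (by norm_num)]

end Pool.Agent.helper41.BP
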