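import Pool.Agent.helper41.BP.Basic

/-!
Non-periodicity and branching.
-/

namespace Pool.Agent.helper41.BP

open Filter

/-- the sequence modulo `p` -/
def fp (p n : ℕ) : ZMod p := (a n : ZMod p)

theorem fp_zero (p : ℕ) : fp p 0 = 1 := by simp [fp, a_zero]

theorem fp_succ (p n : ℕ) : fp p (n + 1) = fp p n + fp p ((n + 1) / 2) := by
  simp [fp, a_succ]

theorem str_fp (p : ℕ) : Str (fun (_ : ℕ) n => fp p n) := fun _ n => fp_succ p n

theorem not_periodic {V : Type*} [AddCommGroup V] {g : ℕ → ℕ → V} (hg : Str g)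
    (hz : ∀ l K, ∃ n ≥ K, g l n ≠ 0) :
    ∀ π, 1 ≤ π → ∀ l n0, ¬ ∀ n ≥ n0, g l (n + π) = g l n := by
  intro π
  induction π using Nat.strong_induction_on with
  | _ π ih =>
    intro hπ l n0 h
    -- next level
    have h1 : ∀ n ≥ n0, g (l + 1) ((n + π + 1) / 2) = g (l + 1) ((n + 1) / 2) := by
      intro n hn
      have e1 := hg l (n + π)
      have e2 := hg l n
      have e3 := h n hn
      have e4 := h (n + 1) (by omega)
      have e5 : n + 1 + π = n + π + 1 := by omega
      rw [e5] at e4
      rw [e4, e3, e2] at e1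
      exact (add_left_cancel e1).symm
    rcases Nat.even_or_odd' π with ⟨i, hi | hi⟩
    · apply ih i (by omega) (by omega) (l + 1) (n0 + 1)
      intro j hj
      have := h1 (2 * j) (by omega)
      have e1 : (2 * j + π + 1) / 2 = j + i := by omega
      have e2 : (2 * j + 1) / 2 = j := by omega
      rw [e1, e2] at this
      exact this
    · -- odd: next level eventually constant
      have h2 : ∀ j ≥ n0 + 1, g (l + 1) (j + 1) = g (l + 1) j := by
        intro j hj
        have := h1 (2 * j) (by omega)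
        have e1 : (2 * j + π + 1) / 2 = j + i + 1 := by omega
        have e2 : (2 * j + 1) / 2 = j := by omega
        rw [e1, e2] at this
        have h3 := h1 (2 * j + 1) (by omega)
        have e3 : (2 * j + 1 + π + 1) / 2 = j + i + 1 := by omega
        have e4 : (2 * j + 1 + 1) / 2 = j + 1 := by omega
        rw [e3, e4] at h3
        rw [← h3, this]
      obtain ⟨n, hn, hne⟩ := hz (l + 2) (n0 + 1)
      apply hne
      have := hg (l + 1) (2 * n)
      have e1 : (2 * n + 1) / 2 = n := by omega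
      rw [e1, h2 _ (by omega)] at this
      exact (left_eq_add.1 this)

theorem branching {V : Type*} [AddCommGroup V] [Finite V] {u : ℕ → ℕ → V} (hu : Str u)
    (hz : ∀ l K, ∃ n ≥ K, u l n ≠ 0) (N : ℕ) :
    ∃ m m', 1 ≤ m ∧ 1 ≤ m' ∧ (∀ l ≤ N, u l (2 ^ (N - l) * m) = u l (2 ^ (N - l) * m')) ∧
      u N (m + 1) ≠ u N (m' + 1) := by
  by_contra hcon
  push Not at hcon
  let T : ℕ → (Fin (N + 1) → V) := fun n l => u l (2 ^ (N - (l : ℕ)) * (n + 1))
  have hT : ∀ n n', T n = T n' → T (n + 1) = T (n' + 1) := by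
    intro n n' h
    have h0 : ∀ l ≤ N, u l (2 ^ (N - l) * (n + 1)) = u l (2 ^ (N - l) * (n' + 1)) :=
      fun l hl => congrFun h ⟨l, by omega⟩
    have h1 := hcon (n + 1) (n' + 1) (by omega) (by omega) h0
    funext l
    have h2 := shift_next (A := fun l k => u l (2 ^ (N - l) * (n + 1) + k) -
      u l (2 ^ (N - l) * (n' + 1) + k)) (N := N) ?_ ?_ (N - l) (by omega)
    · have e1 : N - (N - (l : ℕ)) = l := by have := l.2; omega
      simp only [e1] at h2
      simp only [Nat.sub_self, pow_zero, one_mul, h1, sub_self] at h2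
      have h3 := sub_eq_zero.1 h2
      show u l (2 ^ (N - (l : ℕ)) * (n + 1 + 1)) = u l (2 ^ (N - (l : ℕ)) * (n' + 1 + 1))
      rw [mul_add _ (n + 1) 1, mul_add _ (n' + 1) 1, mul_one]
      exact h3
    · intro l hl k
      simp only [hu.shift N (n + 1) l hl, hu.shift N (n' + 1) l hl]
      abel
    · intro l hl
      simp only [add_zero, h0 l hl, sub_self]
  obtain ⟨i, j, hij, hTij⟩ := Finite.exists_ne_map_eq_of_infinite T
  wlog hlt : i < j generalizing i j
  · exact this j i hij.symm hTij.symm (by omega)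
  have hk : ∀ k, T (i + k) = T (j + k) := by
    intro k
    induction k with
    | zero => exact hTij
    | succ k ih => exact hT _ _ ih
  apply not_periodic hu hz (j - i) (by omega) N (i + 1)
  intro n hn
  have := congrFun (hk (n - (i + 1))) ⟨N, by omega⟩
  simp only [T, Nat.sub_self, pow_zero, one_mul] at this
  have e1 : i + (n - (i + 1)) + 1 = n := by omega
  have e2 : j + (n - (i + 1)) + 1 = n + (j - i) := by omega
  rw [e1, e2] at this
  exact this.symm

theorem exists_branch {V : Type*} [AddCommGroup V] [Finite V] {u : ℕ → ℕ → V} (hu : Str u)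
    (hz : ∀ l K, ∃ n ≥ K, u l n ≠ 0) :
    ∃ (y y' : ℕ → ℕ → V) (α : V), Lim u y ∧ Lim u y' ∧ α ≠ 0 ∧ ∀ l, y l 0 = y' l 0 + α := by
  choose m m' hm hm' h0 h1 using branching hu hz
  refine ⟨ulim u (fun N => m N + 1), ulim u (fun N => m' N + 1),
    ulim u (fun N => m N + 1) 0 0 - ulim u (fun N => m' N + 1) 0 0,
    lim_ulim _ _ (fun N => by omega), lim_ulim _ _ (fun N => by omega), ?_, ?_⟩
  all_goals
    have key : ∀ N, ∀ l ≤ N, u l (2 ^ (N - l) * (m N + 1) + 0) -
        u l (2 ^ (N - l) * (m' N + 1) + 0) = u N (m N + 1) - u N (m' N + 1) := by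
      intro N l hl
      have h2 := shift_next (A := fun l k => u l (2 ^ (N - l) * m N + k) -
        u l (2 ^ (N - l) * m' N + k)) (N := N) ?_ ?_ (N - l) (by omega)
      · have e1 : N - (N - (l : ℕ)) = l := by omega
        simp only [e1] at h2
        simp only [Nat.sub_self, pow_zero, one_mul] at h2
        rw [mul_add, mul_add, mul_one, add_zero, add_zero]
        exact h2
      · intro l hl k
        simp only [hu.shift N (m N) l hl, hu.shift N (m' N) l hl]
        abel
      · intro l hl
        simp only [add_zero, h0 N l hl, sub_self]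
  · obtain ⟨N, hN1, hN2⟩ := ((ulim_spec u (fun N => m N + 1) 0 0).and
      (ulim_spec u (fun N => m' N + 1) 0 0)).exists
    rw [hN1, hN2, key N 0 (by omega)]
    exact sub_ne_zero.2 (h1 N)
  · intro l
    obtain ⟨N, ⟨⟨⟨hN1, hN2⟩, hN3⟩, hN4⟩, hN5⟩ := (((((ulim_spec u (fun N => m N + 1) 0 0).and
      (ulim_spec u (fun N => m' N + 1) 0 0)).and (ulim_spec u (fun N => m N + 1) l 0)).and
      (ulim_spec u (fun N => m' N + 1) l 0)).and (eventually_ge_hyper l)).exists
    rw [hN1, hN2, hN3, hN4, key N 0 (by omega), ← key N l hN5]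
    abel

end Pool.Agent.helper41.BP
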