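import Pool.Agent.helper41.BP.Step

/-!
Combinatorics of the gains.
-/

namespace Pool.Agent.helper41.BP

open Filter Finset

variable {p : ℕ} [Fact p.Prime]

/-- the functionals generated from the gains -/
inductive G (A : ℕ → ℕ → ZMod p) : ℕ → (ℕ → ZMod p) → Prop
  | new (n : ℕ) : G A n (Pi.single n 1)
  | skip (n : ℕ) (x : ℕ → ZMod p) : G A n x → G A (n + 1) x
  | use (n : ℕ) (x : ℕ → ZMod p) : G A n x →
      G A (n + 1) (x - (∑ i ∈ range (n + 1), x i * A i (n + 1)) • Pi.single (n + 1) 1)

/-- value of a functional at a vector -/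
def val (x v : ℕ → ZMod p) (n : ℕ) : ZMod p := ∑ i ∈ range (n + 1), x i * v i

def NV (A : ℕ → ℕ → ZMod p) (n : ℕ) (v : ℕ → ZMod p) : Prop :=
  ∀ x, G A n x → val x v n ≠ 0

theorem closed_add {S : Set (ZMod p)} (hS : S.Nonempty) {c : ZMod p} (hc : c ≠ 0)
    (h : ∀ Y ∈ S, Y + c ∈ S) : (0 : ZMod p) ∈ S := by
  obtain ⟨Y, hY⟩ := hS
  have h1 : ∀ j : ℕ, Y + j * c ∈ S := by
    intro j
    induction j with
    | zero => simpa using hY
    | succ j ih =>
      have := h _ ih
      convert this using 1
      push_cast; ring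
  have h2 := h1 (-Y / c).val
  rw [ZMod.natCast_zmod_val] at h2
  have e : Y + -Y / c * c = 0 := by field_simp; ring
  rwa [e] at h2

variable {A : ℕ → ℕ → ZMod p}

theorem G.supp {n : ℕ} {x : ℕ → ZMod p} (h : G A n x) : ∀ i, n < i → x i = 0 := by
  induction h with
  | new n => intro i hi; exact Pi.single_eq_of_ne (by omega) _
  | skip n x _ ih => intro i hi; exact ih i (by omega)
  | use n x _ ih =>
    intro i hi
    simp only [Pi.sub_apply, Pi.smul_apply, smul_eq_mul]
    rw [ih i (by omega), Pi.single_eq_of_ne (by omega)]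
    simp

theorem G.mono {n m : ℕ} (hnm : n ≤ m) {x : ℕ → ZMod p} (h : G A n x) : G A m x := by
  induction m, hnm using Nat.le_induction with
  | base => exact h
  | succ m _ ih => exact G.skip m x ih

theorem val_mono {n m : ℕ} (hnm : n ≤ m) {x v : ℕ → ZMod p} (h : ∀ i, n < i → x i = 0) :
    val x v m = val x v n := by
  unfold val
  symm
  apply Finset.sum_subset (Finset.range_mono (by omega))
  intro i _ hi
  rw [h i (by simpa using hi), zero_mul]

theorem NV.mono {n m : ℕ} (hnm : n ≤ m) {v : ℕ → ZMod p} (h : NV A m v) : NV A n v := by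
  intro x hx
  have := h x (hx.mono hnm)
  rwa [val_mono hnm hx.supp] at this

/-- functional used at a later index -/
theorem G.use' {n m : ℕ} (hnm : n < m) {x : ℕ → ZMod p} (h : G A n x) :
    G A m (x - (∑ i ∈ range m, x i * A i m) • Pi.single m 1) := by
  obtain ⟨m, rfl⟩ : ∃ m', m = m' + 1 := ⟨m - 1, by omega⟩
  exact G.use m x (h.mono (by omega))

theorem val_use {n m : ℕ} (hnm : n < m) {x v : ℕ → ZMod p} (h : ∀ i, n < i → x i = 0)
    (κ : ZMod p) : val (x - κ • Pi.single m 1) v m = val x v n - κ * v m := by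
  have h1 : val x v m = val x v n := val_mono hnm.le h
  rw [← h1]
  unfold val
  simp only [Pi.sub_apply, Pi.smul_apply, smul_eq_mul, sub_mul, Finset.sum_sub_distrib]
  congr 1
  rw [Finset.sum_eq_single m]
  · simp
  · intro i _ hi
    rw [Pi.single_eq_of_ne hi]; simp
  · intro h
    exact absurd (Finset.mem_range.2 (by omega)) h

theorem val_new (n : ℕ) (v : ℕ → ZMod p) : val (Pi.single n 1) v n = v n := by
  unfold val
  rw [Finset.sum_eq_single n]
  · simp
  · intro i _ hi
    rw [Pi.single_eq_of_ne hi, zero_mul]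
  · intro h
    exact absurd (Finset.mem_range.2 (by omega)) h

theorem NV.ne_zero {n m : ℕ} (hnm : n ≤ m) {v : ℕ → ZMod p} (h : NV A m v) : v n ≠ 0 := by
  have := h.mono hnm _ (G.new n)
  rwa [val_new] at this

theorem ncard_le_p (S : Set (ZMod p)) : S.ncard ≤ p := by
  have := Set.ncard_le_ncard (Set.subset_univ S) (Set.toFinite _)
  rwa [Set.ncard_univ, Nat.card_zmod] at this

/-! ### induced paths -/

theorem path_case {q : ℕ → ℕ} (hq : ∀ k < p, q k < q (k + 1))
    (hA : ∀ k < p, A (q k) (q (k + 1)) ≠ 0)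
    (hA0 : ∀ k m, k + 1 < m → m ≤ p → A (q k) (q m) = 0) (v : ℕ → ZMod p) :
    ¬ NV A (q p) v := by
  intro hv
  have hmono : ∀ k m, k ≤ m → m ≤ p → q k ≤ q m := by
    intro k m hkm
    induction m, hkm using Nat.le_induction with
    | base => intro _; exact le_refl _
    | succ m _ ih => intro hm; exact (ih (by omega)).trans (hq m (by omega)).le
  have hlt : ∀ k m, k < m → m ≤ p → q k < q m := fun k m hkm hm =>
    (hq k (by omega)).trans_le (hmono (k + 1) m hkm hm)
  let B : ℕ → Set (ZMod p) := fun j => {Y | ∃ x, G A (q j) x ∧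
    (∀ i, x i ≠ 0 → ∃ k ≤ j, i = q k) ∧ x (q j) ≠ 0 ∧ val x v (q j) = x (q j) * Y}
  have hB : ∀ j ≤ p, j + 1 ≤ (B j).ncard := by
    intro j
    induction j with
    | zero =>
      intro _
      have : v (q 0) ∈ B 0 := by
        refine ⟨Pi.single (q 0) 1, G.new _, ?_, by simp, ?_⟩
        · intro i hi
          refine ⟨0, le_refl _, ?_⟩
          by_contra h
          exact hi (Pi.single_eq_of_ne h _)
        · rw [val_new]; simp
      have := (Set.ncard_pos (Set.toFinite _)).2 ⟨_, this⟩
      omega
    | succ j ih =>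
      intro hj
      have ih := ih (by omega)
      have h0 : (0 : ZMod p) ∉ B j := by
        rintro ⟨x, hx, -, -, hx0⟩
        rw [mul_zero] at hx0
        exact hv.mono (hmono j p (by omega) (le_refl _)) x hx hx0
      have h1 : (insert 0 (B j)).ncard = (B j).ncard + 1 :=
        Set.ncard_insert_of_notMem h0 (Set.toFinite _)
      have h2 : (insert 0 (B j)).ncard ≤ (B (j + 1)).ncard := by
        apply Set.ncard_le_ncard_of_injOn
          (fun Y => v (q (j + 1)) - Y / A (q j) (q (j + 1)))
        · rintro Y (rfl | hY)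
          · refine ⟨Pi.single (q (j + 1)) 1, G.new _, ?_, by simp, ?_⟩
            · intro i hi
              refine ⟨j + 1, le_refl _, ?_⟩
              by_contra h
              exact hi (Pi.single_eq_of_ne h _)
            · rw [val_new]; simp
          · obtain ⟨x, hx, hxs, hx0, hxY⟩ := hY
            have hne := hA j (by omega)
            have hsum : ∑ i ∈ range (q (j + 1)), x i * A i (q (j + 1)) =
                x (q j) * A (q j) (q (j + 1)) := by
              apply Finset.sum_eq_single
              · intro i _ hi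
                by_cases hxi : x i = 0
                · rw [hxi, zero_mul]
                · obtain ⟨k, hk, rfl⟩ := hxs i hxi
                  have : k ≠ j := fun h => hi (by rw [h])
                  rw [hA0 k (j + 1) (by omega) hj, mul_zero]
              · intro h
                exact absurd (Finset.mem_range.2 (hq j (by omega))) h
            have hlast : x (q (j + 1)) = 0 := hx.supp _ (hq j (by omega))
            refine ⟨_, hx.use' (hq j (by omega)), ?_, ?_, ?_⟩
            · intro i hi
              by_cases h : i = q (j + 1)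
              · exact ⟨j + 1, le_refl _, h⟩
              · have : x i ≠ 0 := by
                  intro h'
                  apply hi
                  simp only [Pi.sub_apply, Pi.smul_apply, smul_eq_mul, h', zero_sub]
                  rw [Pi.single_eq_of_ne h]; simp
                obtain ⟨k, hk, rfl⟩ := hxs i this
                exact ⟨k, by omega, rfl⟩
            · simp only [Pi.sub_apply, Pi.smul_apply, smul_eq_mul, hlast, hsum,
                Pi.single_eq_same, mul_one, zero_sub]
              exact neg_ne_zero.2 (mul_ne_zero hx0 hne)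
            · rw [val_use (hq j (by omega)) hx.supp, hsum, hxY]
              simp only [Pi.sub_apply, Pi.smul_apply, smul_eq_mul, hlast,
                Pi.single_eq_same, mul_one, zero_sub]
              field_simp
              ring
        · intro Y _ Y' _ h
          have hne := hA j (by omega)
          simp only [sub_right_inj] at h
          exact (div_left_inj' hne).1 h
      omega
  have h1 := hB p (le_refl _)
  have h2 := ncard_le_p (B p)
  omega

/-- in a locally finite graph where every positive vertex has an in-neighbour, there are long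
induced paths -/
theorem exists_path (hA : ∀ n, ∃ i ≤ n, A i (n + 1) ≠ 0)
    (hfin : ∀ i, {l | i < l ∧ A i l ≠ 0}.Finite) (D : ℕ) :
    ∃ q : ℕ → ℕ, (∀ k < D, q k < q (k + 1)) ∧ (∀ k < D, A (q k) (q (k + 1)) ≠ 0) ∧
      ∀ k m, k + 1 < m → m ≤ D → A (q k) (q m) = 0 := by
  classical
  let R : ℕ → Set ℕ := fun d => Nat.rec {0} (fun _ s => s ∪ ⋃ i ∈ s, {l | i < l ∧ A i l ≠ 0}) d
  have hR : ∀ d, R (d + 1) = R d ∪ ⋃ i ∈ R d, {l | i < l ∧ A i l ≠ 0} := fun d => rfl
  have hRfin : ∀ d, (R d).Finite := by
    intro d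
    induction d with
    | zero => exact Set.finite_singleton 0
    | succ d ih =>
      rw [hR]
      exact ih.union (ih.biUnion fun i _ => hfin i)
  have hRall : ∀ l, ∃ d, l ∈ R d := by
    intro l
    induction l using Nat.strong_induction_on with
    | _ l ih =>
      rcases l with _ | l
      · exact ⟨0, Set.mem_singleton 0⟩
      · obtain ⟨i, hi, hne⟩ := hA l
        obtain ⟨d, hd⟩ := ih i (by omega)
        refine ⟨d + 1, ?_⟩
        rw [hR]
        right
        simp only [Set.mem_iUnion]
        exact ⟨i, hd, by omega, hne⟩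
  obtain ⟨dist, hd1, hd2⟩ : ∃ dist : ℕ → ℕ, (∀ l, l ∈ R (dist l)) ∧
      ∀ l d, l ∈ R d → dist l ≤ d := by
    have h1 : ∀ l, ∃ d, l ∈ R d ∧ ∀ d', l ∈ R d' → d ≤ d' := by
      intro l
      exact ⟨sInf {d | l ∈ R d}, Nat.sInf_mem (hRall l), fun d' h => Nat.sInf_le h⟩
    choose dist h using h1
    exact ⟨dist, fun l => (h l).1, fun l => (h l).2⟩
  have hd3 : ∀ i l, i < l → A i l ≠ 0 → dist l ≤ dist i + 1 := by
    intro i l hil hne
    apply hd2
    rw [hR]
    right
    simp only [Set.mem_iUnion]
    exact ⟨i, hd1 i, hil, hne⟩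
  have hd4 : ∀ d l, dist l = d + 1 → ∃ i, i < l ∧ A i l ≠ 0 ∧ dist i = d := by
    intro d l hl
    have h1 := hd1 l
    rw [hl, hR] at h1
    rcases h1 with h1 | h1
    · have := hd2 l d h1; omega
    · simp only [Set.mem_iUnion] at h1
      obtain ⟨i, hi, hil, hne⟩ := h1
      refine ⟨i, hil, hne, ?_⟩
      have h2 := hd2 i d hi
      have h3 := hd3 i l hil hne
      omega
  have hpath : ∀ d l, dist l = d → ∃ q : ℕ → ℕ, q d = l ∧ (∀ k ≤ d, dist (q k) = k) ∧
      (∀ k < d, q k < q (k + 1)) ∧ ∀ k < d, A (q k) (q (k + 1)) ≠ 0 := by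
    intro d
    induction d with
    | zero =>
      intro l hl
      refine ⟨fun _ => l, rfl, ?_, by omega, by omega⟩
      intro k hk
      have : k = 0 := by omega
      rw [this]; exact hl
    | succ d ih =>
      intro l hl
      obtain ⟨i, hil, hne, hi⟩ := hd4 d l hl
      obtain ⟨q, hq1, hq2, hq3, hq4⟩ := ih i hi
      refine ⟨fun k => if k ≤ d then q k else l, by simp, ?_, ?_, ?_⟩
      · intro k hk
        by_cases h : k ≤ d
        · simp only [h, if_true]; exact hq2 k h
        · have : k = d + 1 := by omega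
          subst this
          simp [hl]
      · intro k hk
        by_cases h : k + 1 ≤ d
        · simp only [h, if_true, show k ≤ d by omega]; exact hq3 k (by omega)
        · have : k = d := by omega
          subst this
          simp [hq1, hil]
      · intro k hk
        by_cases h : k + 1 ≤ d
        · simp only [h, if_true, show k ≤ d by omega]; exact hq4 k (by omega)
        · have : k = d := by omega
          subst this
          simp [hq1, hne]
  obtain ⟨l, hl⟩ := (hRfin D).infinite_compl.nonempty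
  have hlD : D < dist l := by
    by_contra h
    apply hl
    have hmono : ∀ a b, a ≤ b → R a ⊆ R b := by
      intro a b hab
      induction b, hab using Nat.le_induction with
      | base => exact subset_rfl
      | succ b _ ih => exact ih.trans (by rw [hR]; exact Set.subset_union_left)
    exact hmono _ _ (not_lt.1 h) (hd1 l)
  obtain ⟨q, -, hq2, hq3, hq4⟩ := hpath (dist l) l rfl
  have hmono : ∀ k m, k ≤ m → m ≤ dist l → q k ≤ q m := by
    intro k m hkm
    induction m, hkm using Nat.le_induction with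
    | base => intro _; exact le_refl _
    | succ m _ ih => intro hm; exact (ih (by omega)).trans (hq3 m (by omega)).le
  refine ⟨q, fun k hk => hq3 k (by omega), fun k hk => hq4 k (by omega), ?_⟩
  intro k m hkm hm
  by_contra hne
  have hlt : q k < q m := (hq3 k (by omega)).trans_le (hmono _ _ (by omega) (by omega))
  have := hd3 (q k) (q m) hlt hne
  rw [hq2 k (by omega), hq2 m (by omega)] at this
  omega

/-! ### homogeneous sequences -/

theorem exists_homogeneous {i : ℕ} (hinf : {l | i < l ∧ A i l ≠ 0}.Infinite) :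
    ∃ (j : ℕ → ℕ) (a B : ZMod p), StrictMono j ∧ a ≠ 0 ∧ (∀ k, i < j k) ∧
      (∀ k, A i (j k) = a) ∧ ∀ k m, k < m → A (j k) (j m) = B := by
  have hne : (Filter.cofinite ⊓ 𝓟 {l | i < l ∧ A i l ≠ 0} : Filter ℕ).NeBot := by
    rw [Filter.cofinite_inf_principal_neBot_iff]
    exact hinf
  let U := Ultrafilter.of (Filter.cofinite ⊓ 𝓟 {l | i < l ∧ A i l ≠ 0} : Filter ℕ)
  have hU : (U : Filter ℕ) ≤ Filter.cofinite ⊓ 𝓟 {l | i < l ∧ A i l ≠ 0} := Ultrafilter.of_le _
  have hU1 : ∀ᶠ l in (U : Filter ℕ), i < l ∧ A i l ≠ 0 := by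
    have : {l | i < l ∧ A i l ≠ 0} ∈ (U : Filter ℕ) := hU (Filter.mem_inf_of_right (by simp))
    exact this
  have hU2 : ∀ K, ∀ᶠ l in (U : Filter ℕ), K < l := by
    intro K
    have h1 : ∀ᶠ l in (Filter.cofinite : Filter ℕ), K < l := by
      rw [Nat.cofinite_eq_atTop]; exact eventually_gt_atTop K
    exact (hU.trans inf_le_left) h1
  have hlim : ∀ j, ∃ x, ∀ᶠ l in (U : Filter ℕ), A j l = x := by
    intro j
    rw [← Ultrafilter.eventually_exists_iff]
    exact Eventually.of_forall fun l => ⟨_, rfl⟩
  choose Ai hAi using hlim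
  obtain ⟨B, hB⟩ : ∃ x, ∀ᶠ l in (U : Filter ℕ), Ai l = x := by
    rw [← Ultrafilter.eventually_exists_iff]
    exact Eventually.of_forall fun l => ⟨_, rfl⟩
  obtain ⟨j, hj1, hj2⟩ := exists_seq_of_forall_finset_exists
    (fun y => i < y ∧ A i y = Ai i ∧ Ai y = B) (fun x y => x < y ∧ A x y = B) (by
      intro s hs
      have h1 : ∀ᶠ y in (U : Filter ℕ), ∀ x ∈ s, x < y ∧ A x y = B := by
        rw [Filter.eventually_all_finset]
        intro x hx
        filter_upwards [hU2 x, hAi x] with y hy1 hy2
        exact ⟨hy1, by rw [hy2, (hs x hx).2.2]⟩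
      obtain ⟨y, ⟨⟨⟨hy1, hy2⟩, hy3⟩, hy4⟩⟩ := (((h1.and (hU2 i)).and (hAi i)).and hB).exists
      exact ⟨y, ⟨hy2, hy3, hy4⟩, hy1⟩)
  refine ⟨j, Ai i, B, strictMono_nat_of_lt_succ (fun n => (hj2 n (n + 1) (by omega)).1), ?_,
    fun k => (hj1 k).1, fun k => (hj1 k).2.1, fun k m hkm => (hj2 k m hkm).2⟩
  obtain ⟨l, hl1, hl2⟩ := (hU1.and (hAi i)).exists
  rw [← hl2]
  exact hl1.2

/-- star case -/
theorem star_case {i : ℕ} {j : ℕ → ℕ} (hj : StrictMono j) {a : ZMod p} (ha : a ≠ 0)
    (hij : ∀ k, i < j k) (hAi : ∀ k, A i (j k) = a) (hAj : ∀ k m, k < m → A (j k) (j m) = 0)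
    (v : ℕ → ZMod p) : ¬ NV A (j p) v := by
  intro hv
  let S : ℕ → Set (ZMod p) := fun k => {X | ∃ x, G A (j k) x ∧ x i = 1 ∧
    (∀ i', x i' ≠ 0 → i' = i ∨ ∃ m ≤ k, i' = j m) ∧ val x v (j k) = X}
  have hS : ∀ k ≤ p, k + 1 ≤ (S k).ncard := by
    intro k
    induction k with
    | zero =>
      intro _
      have : val (Pi.single i 1) v (j 0) ∈ S 0 := by
        refine ⟨Pi.single i 1, (G.new i).mono (hij 0).le, by simp, ?_, rfl⟩
        intro i' hi'
        left
        by_contra h
        exact hi' (Pi.single_eq_of_ne h _)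
      have := (Set.ncard_pos (Set.toFinite _)).2 ⟨_, this⟩
      omega
    | succ k ih =>
      intro hk
      have ih := ih (by omega)
      have h0 : (0 : ZMod p) ∉ S k := by
        rintro ⟨x, hx, -, -, hx0⟩
        exact hv.mono (hj.monotone (by omega)) x hx hx0
      have hsub : S k ⊆ S (k + 1) := by
        rintro X ⟨x, hx, hxi, hxs, rfl⟩
        refine ⟨x, hx.mono (hj.monotone (by omega)), hxi, ?_, ?_⟩
        · intro i' hi'
          rcases hxs i' hi' with h | ⟨m, hm, h⟩
          · exact Or.inl h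
          · exact Or.inr ⟨m, by omega, h⟩
        · exact val_mono (hj.monotone (by omega)) hx.supp
      have hc : - (a * v (j (k + 1))) ≠ 0 := by
        exact neg_ne_zero.2 (mul_ne_zero ha (hv.ne_zero (hj.monotone (by omega))))
      have hshift : ∀ X ∈ S k, X + -(a * v (j (k + 1))) ∈ S (k + 1) := by
        rintro X ⟨x, hx, hxi, hxs, rfl⟩
        have hlt : j k < j (k + 1) := hj (by omega)
        have hsum : ∑ i' ∈ range (j (k + 1)), x i' * A i' (j (k + 1)) = a := by
          rw [Finset.sum_eq_single i]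
          · rw [hxi, hAi, one_mul]
          · intro i' _ hi'
            by_cases hxi' : x i' = 0
            · rw [hxi', zero_mul]
            · rcases hxs i' hxi' with h | ⟨m, hm, rfl⟩
              · exact absurd h hi'
              · rw [hAj m (k + 1) (by omega), mul_zero]
          · intro h
            exact absurd (Finset.mem_range.2 (hij _)) h
        refine ⟨_, hx.use' hlt, ?_, ?_, ?_⟩
        · simp only [Pi.sub_apply, Pi.smul_apply, smul_eq_mul, hxi]
          rw [Pi.single_eq_of_ne (hij (k + 1)).ne]; simp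
        · intro i' hi'
          by_cases h : i' = j (k + 1)
          · exact Or.inr ⟨k + 1, le_refl _, h⟩
          · have : x i' ≠ 0 := by
              intro h'
              apply hi'
              simp only [Pi.sub_apply, Pi.smul_apply, smul_eq_mul, h', zero_sub]
              rw [Pi.single_eq_of_ne h]; simp
            rcases hxs i' this with h | ⟨m, hm, h⟩
            · exact Or.inl h
            · exact Or.inr ⟨m, by omega, h⟩
        · rw [val_use hlt hx.supp, hsum]; ring
      by_contra hcon
      have heq : S k = S (k + 1) :=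
        Set.eq_of_subset_of_ncard_le hsub (by omega) (Set.toFinite _)
      apply h0
      apply closed_add ?_ hc
      · intro Y hY
        rw [heq]; exact hshift Y hY
      · by_contra hempty
        rw [Set.not_nonempty_iff_eq_empty] at hempty
        rw [hempty, Set.ncard_empty] at ih
        omega
  have h1 := hS p (le_refl _)
  have h2 := ncard_le_p (S p)
  omega

/-- clique case -/
theorem clique_case {j : ℕ → ℕ} (hj : StrictMono j) (hAj : ∀ k m, k < m → A (j k) (j m) = 1)
    (v : ℕ → ZMod p) : ¬ NV A (j p) v := by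
  intro hv
  have hinj : ∀ k m, k < m → m ≤ p → v (j k) ≠ v (j m) := by
    intro k m hkm hm heq
    have hlt : j k < j m := hj hkm
    have h1 := hv.mono (hj.monotone hm) _ ((G.new (j k)).use' hlt)
    apply h1
    have hsum : ∑ i ∈ range (j m), (Pi.single (j k) (1 : ZMod p) : ℕ → ZMod p) i * A i (j m)
        = 1 := by
      rw [Finset.sum_eq_single (j k)]
      · rw [hAj k m hkm]; simp
      · intro i _ hi
        rw [Pi.single_eq_of_ne hi, zero_mul]
      · intro h
        exact absurd (Finset.mem_range.2 hlt) h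
    rw [val_use hlt (G.new (A := A) (j k)).supp, hsum, val_new, heq]
    ring
  have h1 : Function.Injective (fun k : Fin (p + 1) => v (j k)) := by
    intro k m h
    rcases lt_trichotomy (k : ℕ) (m : ℕ) with h' | h' | h'
    · exact absurd h (hinj k m h' (by omega))
    · exact Fin.ext h'
    · exact absurd h.symm (hinj m k h' (by omega))
  have h2 := Nat.card_le_card_of_injective _ h1
  rw [Nat.card_zmod, Nat.card_fin] at h2
  omega

theorem closed_two {S : Set (ZMod p)} (hS : S.Nonempty) {B a b : ZMod p} (hB0 : B ≠ 0)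
    (hB1 : 1 - B ≠ 0) (hab : a ≠ b) (ha : ∀ Y ∈ S, (Y - B * a) / (1 - B) ∈ S)
    (hb : ∀ Y ∈ S, (Y - B * b) / (1 - B) ∈ S) : (0 : ZMod p) ∈ S := by
  have hc : B * (b - a) / (1 - B) ≠ 0 :=
    div_ne_zero (mul_ne_zero hB0 (sub_ne_zero.2 (Ne.symm hab))) hB1
  apply closed_add hS hc
  have hsurj : ∀ Y ∈ S, ∃ Z ∈ S, (Z - B * b) / (1 - B) = Y := by
    let g : S → S := fun Y => ⟨_, hb Y.1 Y.2⟩
    have hg : Function.Injective g := by
      rintro ⟨Y, hY⟩ ⟨Y', hY'⟩ h
      have h1 : (Y - B * b) / (1 - B) = (Y' - B * b) / (1 - B) := congrArg Subtype.val h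
      exact Subtype.ext (sub_left_injective ((div_left_inj' hB1).1 h1))
    have hg' := Finite.surjective_of_injective hg
    intro Y hY
    obtain ⟨⟨Z, hZ⟩, h⟩ := hg' ⟨Y, hY⟩
    exact ⟨Z, hZ, congrArg Subtype.val h⟩
  intro Y hY
  obtain ⟨Z, hZ, rfl⟩ := hsurj Y hY
  have := ha Z hZ
  convert this using 1
  field_simp
  ring

/-- general case -/
theorem general_case {j : ℕ → ℕ} (hj : StrictMono j) {B : ZMod p} (hB0 : B ≠ 0)
    (hB1 : 1 - B ≠ 0) (hAj : ∀ k m, k < m → A (j k) (j m) = B)
    (r : ℕ) (v : ℕ → ZMod p) (hv : NV A (j r) v) :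
    #{k ∈ range r | v (j k) ≠ v (j (k + 1))} ≤ 2 * p := by
  let S : ℕ → Set (ZMod p) := fun k => {Y | ∃ x, G A (j k) x ∧
    (∀ i', x i' ≠ 0 → ∃ m ≤ k, i' = j m) ∧ ∑ i' ∈ range (j k + 1), x i' ≠ 0 ∧
    val x v (j k) = (∑ i' ∈ range (j k + 1), x i') * Y}
  have hsumext : ∀ k m, k ≤ m → ∀ x : ℕ → ZMod p, (∀ i', j k < i' → x i' = 0) →
      ∑ i' ∈ range (j m + 1), x i' = ∑ i' ∈ range (j k + 1), x i' := by
    intro k m hkm x hx
    symm
    apply Finset.sum_subset (Finset.range_mono (by have := hj.monotone hkm; omega))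
    intro i' _ hi'
    exact hx i' (by simpa using hi')
  have hnew : ∀ k, v (j k) ∈ S k := by
    intro k
    have e : ∑ i' ∈ range (j k + 1), (Pi.single (j k) (1 : ZMod p) : ℕ → ZMod p) i' = 1 := by
      rw [Finset.sum_eq_single (j k)]
      · simp
      · intro i _ hi
        rw [Pi.single_eq_of_ne hi]
      · intro h
        exact absurd (Finset.mem_range.2 (by omega)) h
    refine ⟨Pi.single (j k) 1, G.new _, ?_, ?_, ?_⟩
    · intro i' hi'
      refine ⟨k, le_refl _, ?_⟩
      by_contra h
      exact hi' (Pi.single_eq_of_ne h _)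
    · rw [e]; exact one_ne_zero
    · rw [e, val_new, one_mul]
  have h0 : ∀ k ≤ r, (0 : ZMod p) ∉ S k := by
    rintro k hk ⟨x, hx, -, -, hx0⟩
    rw [mul_zero] at hx0
    exact hv.mono (hj.monotone hk) x hx hx0
  have hsub : ∀ k, S k ⊆ S (k + 1) := by
    rintro k X ⟨x, hx, hxs, hσ, hxv⟩
    refine ⟨x, hx.mono (hj.monotone (by omega)), ?_, ?_, ?_⟩
    · intro i' hi'
      obtain ⟨m, hm, h⟩ := hxs i' hi'
      exact ⟨m, by omega, h⟩
    · rw [hsumext k (k + 1) (by omega) x hx.supp]; exact hσ
    · rw [hsumext k (k + 1) (by omega) x hx.supp, ← hxv]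
      exact val_mono (hj.monotone (by omega)) hx.supp
  have hmap : ∀ k, ∀ Y ∈ S k, (Y - B * v (j (k + 1))) / (1 - B) ∈ S (k + 1) := by
    rintro k Y ⟨x, hx, hxs, hσ, hxv⟩
    have hlt : j k < j (k + 1) := hj (by omega)
    set σ := ∑ i' ∈ range (j k + 1), x i' with hσdef
    have hsum : ∑ i' ∈ range (j (k + 1)), x i' * A i' (j (k + 1)) = B * σ := by
      have h1 : ∀ i' ∈ range (j (k + 1)), x i' * A i' (j (k + 1)) = B * x i' := by
        intro i' _
        by_cases hxi' : x i' = 0
        · rw [hxi', zero_mul, mul_zero]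
        · obtain ⟨m, hm, rfl⟩ := hxs i' hxi'
          rw [hAj m (k + 1) (by omega), mul_comm]
      rw [Finset.sum_congr rfl h1, ← Finset.mul_sum]
      congr 1
      rw [hσdef]
      symm
      apply Finset.sum_subset (Finset.range_mono (by omega))
      intro i' _ hi'
      exact hx.supp i' (by simpa using hi')
    have hσ' : ∑ i' ∈ range (j (k + 1) + 1), (x - (B * σ) • Pi.single (j (k + 1)) (1 : ZMod p)
        : ℕ → ZMod p) i' = (1 - B) * σ := by
      simp only [Pi.sub_apply, Pi.smul_apply, smul_eq_mul, Finset.sum_sub_distrib]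
      rw [hsumext k (k + 1) (by omega) x hx.supp, ← hσdef, Finset.sum_eq_single (j (k + 1))]
      · rw [Pi.single_eq_same]; ring
      · intro i' _ hi'
        rw [Pi.single_eq_of_ne hi', mul_zero]
      · intro h
        exact absurd (Finset.mem_range.2 (by omega)) h
    have hG := hx.use' hlt
    rw [hsum] at hG
    refine ⟨_, hG, ?_, ?_, ?_⟩
    · intro i' hi'
      by_cases h : i' = j (k + 1)
      · exact ⟨k + 1, le_refl _, h⟩
      · have : x i' ≠ 0 := by
          intro h'
          apply hi'
          simp only [Pi.sub_apply, Pi.smul_apply, smul_eq_mul, h', zero_sub]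
          rw [Pi.single_eq_of_ne h]; simp
        obtain ⟨m, hm, h⟩ := hxs i' this
        exact ⟨m, by omega, h⟩
    · rw [hσ']; exact mul_ne_zero hB1 hσ
    · rw [hσ', val_use hlt hx.supp, hxv]
      field_simp
  -- strict growth at changes
  have hgrow : ∀ k, k + 2 ≤ r → v (j (k + 1)) ≠ v (j (k + 2)) →
      (S k).ncard < (S (k + 2)).ncard := by
    intro k hk hne
    by_contra hcon
    have heq : S k = S (k + 2) :=
      Set.eq_of_subset_of_ncard_le ((hsub k).trans (hsub (k + 1))) (by omega) (Set.toFinite _)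
    have heq1 : S (k + 1) = S k :=
      Set.Subset.antisymm (by rw [heq]; exact hsub (k + 1)) (hsub k)
    apply h0 k (by omega)
    apply closed_two ⟨_, hnew k⟩ hB0 hB1 hne
    · intro Y hY
      rw [← heq1]
      exact hmap k Y hY
    · intro Y hY
      rw [heq]
      rw [← heq1] at hY
      exact hmap (k + 1) Y hY
  have hcount : ∀ m, m + 1 ≤ r → #{k ∈ range (m + 1) | v (j k) ≠ v (j (k + 1))} ≤
      (S (m + 1)).ncard + (S m).ncard := by
    intro m
    induction m with
    | zero =>
      intro _
      have h1 : #{k ∈ range (0 + 1) | v (j k) ≠ v (j (k + 1))} ≤ 1 :=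
        (Finset.card_filter_le _ _).trans (by simp)
      have h2 := (Set.ncard_pos (Set.toFinite (S 0))).2 ⟨_, hnew 0⟩
      omega
    | succ m ih =>
      intro hm
      have ih := ih (by omega)
      rw [Finset.range_add_one, Finset.filter_insert]
      have h1 : (S m).ncard ≤ (S (m + 1)).ncard := Set.ncard_le_ncard (hsub m) (Set.toFinite _)
      have h2 : (S (m + 1)).ncard ≤ (S (m + 1 + 1)).ncard :=
        Set.ncard_le_ncard (hsub (m + 1)) (Set.toFinite _)
      split_ifs with h
      · have h3 : (S m).ncard < (S (m + 1 + 1)).ncard := hgrow m (by omega) h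
        have h4 := Finset.card_insert_le (m + 1) {k ∈ range (m + 1) | v (j k) ≠ v (j (k + 1))}
        omega
      · omega
  rcases r with _ | r
  · simp
  · have h1 := hcount r (le_refl _)
    have h2 := ncard_le_p (S (r + 1))
    have h3 := ncard_le_p (S r)
    omega

/-- summary -/
theorem comb (hA : ∀ n, ∃ i ≤ n, A i (n + 1) ≠ 0) :
    (∃ n, ∀ v, ¬ NV A n v) ∨ (∃ j : ℕ → ℕ, StrictMono j ∧ ∀ r v, NV A (j r) v →
      #{k ∈ range r | v (j k) ≠ v (j (k + 1))} ≤ 2 * p) := by
  by_cases hfin : ∀ i, {l | i < l ∧ A i l ≠ 0}.Finite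
  · obtain ⟨q, hq1, hq2, hq3⟩ := exists_path hA hfin p
    exact Or.inl ⟨q p, path_case hq1 hq2 hq3⟩
  · push Not at hfin
    obtain ⟨i, hi⟩ := hfin
    obtain ⟨j, a, B, hj, ha, hij, hAi, hAj⟩ := exists_homogeneous hi
    by_cases hB0 : B = 0
    · subst hB0
      exact Or.inl ⟨j p, star_case hj ha hij hAi hAj⟩
    · by_cases hB1 : B = 1
      · subst hB1
        exact Or.inl ⟨j p, clique_case hj hAj⟩
      · exact Or.inr ⟨j, hj, fun r v hv =>
          general_case hj hB0 (sub_ne_zero.2 (Ne.symm hB1)) hAj r v hv⟩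

end Pool.Agent.helper41.BP
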