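import Pool.Agent.helper41.BP.Comb

/-!
Positive density of the places where two coordinates of a stable tuple differ.
-/

namespace Pool.Agent.helper41.BP

open Filter Finset

variable {p : ℕ}

theorem align {V : Type*} [AddCommGroup V] (e : ℕ) : ∀ (D : ℕ → ℕ → V), Str D → ∀ (z t : ℕ) (δ : V),
    (∀ n, z ≤ n → n < t → D 0 n = 0) → D 0 t = δ → δ ≠ 0 → z + 3 * 2 ^ e ≤ t + 1 →
    ∃ t', t = 2 ^ (e + 1) * t' ∧ ∀ l ≤ e + 1, D l (2 ^ (e + 1 - l) * t') = δ := by
  induction e with
  | zero =>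
    intro D hD z t δ h0 ht hδ hzt
    simp only [pow_zero, mul_one] at hzt
    obtain ⟨j, hj⟩ : ∃ j, t = 2 * j := by
      rcases Nat.even_or_odd' t with ⟨j, hj | hj⟩
      · exact ⟨j, hj⟩
      · exfalso
        have e1 := hD 0 (2 * j)
        have e2 := hD 0 (2 * j - 1)
        have e3 : (2 * j + 1) / 2 = j := by omega
        have e4 : 2 * j - 1 + 1 = 2 * j := by omega
        have e5 : 2 * j / 2 = j := by omega
        rw [e4, e5, h0 (2 * j) (by omega) (by omega), h0 (2 * j - 1) (by omega) (by omega),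
          zero_add] at e2
        rw [e3, ← hj, h0 (2 * j) (by omega) (by omega), zero_add, ← e2, ht] at e1
        exact hδ e1
    have e1 : D 1 j = δ := by
      have e2 := hD 0 (2 * j - 1)
      have e4 : 2 * j - 1 + 1 = 2 * j := by omega
      have e5 : 2 * j / 2 = j := by omega
      rw [e4, e5, h0 (2 * j - 1) (by omega) (by omega), zero_add, ← hj, ht] at e2
      exact e2.symm
    refine ⟨j, by rw [hj]; ring, ?_⟩
    intro l hl
    rcases l with _ | l
    · rw [← ht, hj]; norm_num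
    · have : l = 0 := by omega
      subst this
      simpa using e1
  | succ e ih =>
    intro D hD z t δ h0 ht hδ hzt
    have hpe : 1 ≤ 2 ^ e := Nat.one_le_two_pow
    have hzt' : z + 6 * 2 ^ e ≤ t + 1 := by rw [pow_succ] at hzt; omega
    obtain ⟨j, hj⟩ : ∃ j, t = 2 * j := by
      rcases Nat.even_or_odd' t with ⟨j, hj | hj⟩
      · exact ⟨j, hj⟩
      · exfalso
        have e1 := hD 0 (2 * j)
        have e2 := hD 0 (2 * j - 1)
        have e3 : (2 * j + 1) / 2 = j := by omega
        have e4 : 2 * j - 1 + 1 = 2 * j := by omega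
        have e5 : 2 * j / 2 = j := by omega
        rw [e4, e5, h0 (2 * j) (by omega) (by omega), h0 (2 * j - 1) (by omega) (by omega),
          zero_add] at e2
        rw [e3, ← hj, h0 (2 * j) (by omega) (by omega), zero_add, ← e2, ht] at e1
        exact hδ e1
    have e1 : ∀ i, z < 2 * i → D 1 i = D 0 (2 * i) - D 0 (2 * i - 1) := by
      intro i hi
      have e2 := hD 0 (2 * i - 1)
      have e4 : 2 * i - 1 + 1 = 2 * i := by omega
      have e5 : 2 * i / 2 = i := by omega
      rw [e4, e5] at e2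
      rw [e2]; abel
    obtain ⟨t', ht', hl'⟩ := ih (fun l n => D (1 + l) n) (hD.tail 1) (z / 2 + 1) j δ (by
        intro i hi hij
        show D (1 + 0) i = 0
        rw [add_zero, e1 i (by omega), h0 _ (by omega) (by omega), h0 _ (by omega) (by omega),
          sub_self])
      (by
        show D (1 + 0) j = δ
        rw [add_zero, e1 j (by omega), ← hj, ht, h0 _ (by omega) (by omega), sub_zero]) hδ
      (by omega)
    refine ⟨t', by rw [hj, ht', pow_succ 2 (e + 1)]; ring, ?_⟩
    intro l hl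
    rcases l with _ | l
    · rw [← ht, hj, ht', Nat.sub_zero, pow_succ 2 (e + 1)]
      congr 1
      ring
    · have := hl' l (by omega)
      have e2 : e + 1 + 1 - (l + 1) = e + 1 - l := by omega
      rw [e2, add_comm l 1]
      exact this

variable [Fact p.Prime]

theorem after_run (hp : p ≠ 2) {D : ℕ → ℕ → ZMod p} (hD : Str D) {s t : ℕ} (hst : s + 5 ≤ t)
    (h : ∀ k, s ≤ k → k < t → D 0 (4 * k + 2) = 0) (ht : D 0 (4 * t + 2) ≠ 0) :
    ∃ δ : ZMod p, δ ≠ 0 ∧ ∀ i, 1 ≤ i → s + 3 * i < t →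
      D 0 (4 * (t + i) + 2) = δ * fp p (4 * i + 2) := by
  obtain ⟨h2, h1, h0⟩ := local_zero hp hD hst h
  have E (l n m : ℕ) (hm : (n + 1) / 2 = m) : D l (n + 1) = D l n + D (l + 1) m := by
    rw [hD, hm]
  have d1 : D 1 (2 * t) = D 2 t := by
    have := E 1 (2 * t - 1) t (by omega)
    have e : 2 * t - 1 + 1 = 2 * t := by omega
    rw [e, h1 (2 * t - 1) (by omega) (by omega), zero_add] at this
    exact this
  have d0 : D 0 (4 * t) = D 2 t := by
    have := E 0 (4 * t - 1) (2 * t) (by omega)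
    have e : 4 * t - 1 + 1 = 4 * t := by omega
    rw [e, h0 (4 * t - 1) (by omega) (by omega), zero_add] at this
    rw [this]; exact d1
  have hδ : D 2 t ≠ 0 := by
    intro hd
    apply ht
    have e1 := E 0 (4 * t) (2 * t) (by omega)
    have e2 := E 0 (4 * t + 1) (2 * t + 1) (by omega)
    have e3 := E 1 (2 * t) t (by omega)
    simp only [Nat.add_assoc, Nat.reduceAdd] at e1 e2 e3
    rw [e2, e1, e3, d1, d0, hd]
    simp
  refine ⟨D 2 t, hδ, fun i hi hi' => ?_⟩
  obtain ⟨e, he1, he2⟩ : ∃ e, 2 ^ e ≤ i ∧ i < 2 ^ (e + 1) :=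
    ⟨Nat.log2 i, Nat.log2_self_le (by omega), Nat.lt_log2_self⟩
  obtain ⟨t', ht', hl'⟩ := align e (fun l n => D (2 + l) n) (hD.tail 2) (s + 1) t (D 2 t)
    (fun n hn hn' => h2 n hn hn') rfl hδ (by omega)
  have htower : ∀ l ≤ e + 3, D l (2 ^ (e + 3 - l) * t') = D 2 t := by
    intro l hl
    rcases l with _ | _ | l
    · rw [← d0]
      congr 1
      rw [Nat.sub_zero, ht', show e + 3 = (e + 1) + 2 from rfl, pow_add]
      ring
    · rw [← d1]
      congr 1
      rw [ht', show e + 3 - (0 + 1) = (e + 1) + 1 by omega, pow_add 2 (e + 1) 1]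
      ring
    · have := hl' l (by omega)
      rw [show e + 3 - (l + 1 + 1) = e + 1 - l by omega, show l + 1 + 1 = 2 + l by omega]
      exact this
  have hsh := shift_zero (A := fun l k => D l (2 ^ (e + 3 - l) * t' + k) - D 2 t * fp p k)
    (N := e + 3) (by
      intro l hl n
      simp only [hD.shift (e + 3) t' l hl, fp_succ]
      ring) (by
      intro l hl
      simp only [add_zero, htower l hl, fp_zero, mul_one, sub_self]) (4 * i + 2) 0 (by omega)
    (by
      rw [Nat.sub_zero, show e + 3 = (e + 1) + 2 from rfl, pow_add]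
      omega)
  have e1 : 2 ^ (e + 3 - 0) * t' + (4 * i + 2) = 4 * (t + i) + 2 := by
    have : 2 ^ (e + 3) * t' = 4 * t := by
      rw [ht', show e + 3 = (e + 1) + 2 from rfl, pow_add]; ring
    rw [Nat.sub_zero, this]; ring
  simp only [e1] at hsh
  exact sub_eq_zero.1 hsh

/-- abstract charging argument -/
theorem charging {Z : ℕ → Prop} [DecidablePred Z] {K M : ℕ}
    (h1 : ∀ n, ∃ t, n ≤ t ∧ t ≤ n + M ∧ ¬ Z t)
    (h2 : ∀ s t, s + 5 ≤ t → (∀ k, s ≤ k → k < t → Z k) → ¬ Z t →
      ∀ i, K ≤ i → 1 ≤ i → s + 3 * i < t → ¬ Z (t + i)) (X : ℕ) :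
    X ≤ (12 * K + 17) * (#{n ∈ range X | ¬ Z n} + (2 * M + 1)) := by
  -- next non-Z element
  have hnext : ∀ z, ∃ t, z ≤ t ∧ t ≤ z + M ∧ ¬ Z t ∧ ∀ k, z ≤ k → k < t → Z k := by
    intro z
    obtain ⟨t, ht1, ht2, ht3⟩ := h1 z
    have hex : ∃ t, z ≤ t ∧ ¬ Z t := ⟨t, ht1, ht3⟩
    refine ⟨Nat.find hex, (Nat.find_spec hex).1, (Nat.find_min' hex ⟨ht1, ht3⟩).trans ht2,
      (Nat.find_spec hex).2, ?_⟩
    intro k hk hk'
    by_contra hZ
    exact Nat.find_min hex hk' ⟨hk, hZ⟩
  choose τ hτ1 hτ2 hτ3 hτ4 using hnext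
  let T0 := 12 * K + 12
  let w : ℕ → ℕ := fun z => if T0 ≤ τ z - z then τ z + (τ z - z) / 4 else τ z
  have hlt : ∀ z, Z z → z < τ z := by
    intro z hz
    rcases Nat.lt_or_ge z (τ z) with h | h
    · exact h
    · have : τ z = z := le_antisymm h (hτ1 z)
      exact absurd hz (this ▸ hτ3 z)
  have hwZ : ∀ z, Z z → ¬ Z (w z) := by
    intro z hz
    simp only [w]
    split_ifs with h
    · have h3 := hτ1 z
      simp only [T0] at h
      exact h2 z (τ z) (by omega) (hτ4 z) (hτ3 z) _ (by omega) (by omega) (by omega)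
    · exact hτ3 z
  have hwle : ∀ z, w z ≤ z + 2 * M := by
    intro z
    have h3 := hτ2 z
    have h4 := hτ1 z
    simp only [w]
    split_ifs <;> omega
  have hcard : #{n ∈ range X | Z n} ≤ (T0 + 4) * #{n ∈ range (X + (2 * M + 1)) | ¬ Z n} := by
    apply Finset.card_le_mul_card_image_of_maps_to (f := w)
    · intro z hz
      simp only [Finset.mem_filter, Finset.mem_range] at hz ⊢
      have := hwle z
      exact ⟨by omega, hwZ z hz.2⟩
    · intro b _
      have hsplit : {a ∈ {n ∈ range X | Z n} | w a = b} ⊆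
          {a ∈ range X | Z a ∧ w a = b ∧ ¬ T0 ≤ τ a - a} ∪
          {a ∈ range X | Z a ∧ w a = b ∧ T0 ≤ τ a - a} := by
        intro a ha
        simp only [Finset.mem_filter, Finset.mem_union] at ha ⊢
        by_cases h : T0 ≤ τ a - a
        · exact Or.inr ⟨ha.1.1, ha.1.2, ha.2, h⟩
        · exact Or.inl ⟨ha.1.1, ha.1.2, ha.2, h⟩
      refine (Finset.card_le_card hsplit).trans ((Finset.card_union_le _ _).trans ?_)
      apply add_le_add
      · have hsub : {a ∈ range X | Z a ∧ w a = b ∧ ¬ T0 ≤ τ a - a} ⊆ Finset.Ico (b - T0) b := by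
          intro a ha
          simp only [Finset.mem_filter, Finset.mem_Ico] at ha ⊢
          obtain ⟨_, hZ, hw, hT⟩ := ha
          simp only [w, if_neg hT] at hw
          have := hlt a hZ
          omega
        have := Finset.card_le_card hsub
        rw [Nat.card_Ico] at this
        omega
      · by_cases hne : ({a ∈ range X | Z a ∧ w a = b ∧ T0 ≤ τ a - a} : Finset ℕ).Nonempty
        · obtain ⟨a0, ha0⟩ := hne
          simp only [Finset.mem_filter] at ha0
          obtain ⟨_, hZ0, hw0, hT0⟩ := ha0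
          -- any two have the same τ
          have hsame : ∀ a a', Z a → Z a' → w a = b → w a' = b → T0 ≤ τ a - a →
              T0 ≤ τ a' - a' → ¬ τ a < τ a' := by
            intro a a' hZa hZa' hwa hwa' hTa hTa' hlt'
            simp only [w, if_pos hTa] at hwa
            simp only [w, if_pos hTa'] at hwa'
            have h3 : τ a < a' := by
              by_contra hcon
              exact hτ3 a (hτ4 a' (τ a) (by omega) hlt')
            have h4 := hτ1 a'
            have h5 := hτ1 a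
            simp only [T0] at hTa hTa'
            have h6 := h2 a (τ a) (by omega) (hτ4 a) (hτ3 a) (τ a' - 1 - τ a) (by omega)
              (by omega) (by omega)
            apply h6
            apply hτ4 a' _ (by omega) (by omega)
          have hsub : {a ∈ range X | Z a ∧ w a = b ∧ T0 ≤ τ a - a} ⊆
              Finset.Icc (τ a0 - (4 * (b - τ a0) + 3)) (τ a0 - 4 * (b - τ a0)) := by
            intro a ha
            simp only [Finset.mem_filter, Finset.mem_Icc] at ha ⊢
            obtain ⟨_, hZ, hw, hT⟩ := ha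
            have e1 := hsame a a0 hZ hZ0 hw hw0 hT hT0
            have e2 := hsame a0 a hZ0 hZ hw0 hw hT0 hT
            have e3 : τ a = τ a0 := by omega
            simp only [w, if_pos hT, e3] at hw
            have e4 := hlt a hZ
            rw [e3] at e4
            omega
          have := Finset.card_le_card hsub
          rw [Nat.card_Icc] at this
          omega
        · rw [Finset.not_nonempty_iff_eq_empty] at hne
          rw [hne]; simp
  have hext : #{n ∈ range (X + (2 * M + 1)) | ¬ Z n} ≤ #{n ∈ range X | ¬ Z n} + (2 * M + 1) := by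
    have hsub : {n ∈ range (X + (2 * M + 1)) | ¬ Z n} ⊆
        {n ∈ range X | ¬ Z n} ∪ Finset.Ico X (X + (2 * M + 1)) := by
      intro a ha
      simp only [Finset.mem_filter, Finset.mem_union, Finset.mem_range, Finset.mem_Ico] at ha ⊢
      by_cases h : a < X
      · exact Or.inl ⟨h, ha.2⟩
      · exact Or.inr ⟨by omega, ha.1⟩
    refine (Finset.card_le_card hsub).trans ((Finset.card_union_le _ _).trans ?_)
    rw [Nat.card_Ico]
    omega
  have htot : #{n ∈ range X | Z n} + #{n ∈ range X | ¬ Z n} = X := by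
    rw [Finset.card_filter_add_card_filter_not, Finset.card_range]
  have hT : T0 + 4 = 12 * K + 16 := rfl
  rw [hT] at hcard
  have h3 := Nat.mul_le_mul_left (12 * K + 16) hext
  nlinarith

theorem pos_calc (n : ℕ) {N k : ℕ} (hN : 4 * k + 2 ≤ N) :
    ∃ j ≤ 2 ^ N, 2 ^ (N - 0) * ((4 * n + 2) / 2 ^ N + 1) + (4 * k + 2) = 4 * (n + j) + 2 := by
  have h3 : (2 : ℕ) ^ N = 4 * 2 ^ (N - 2) := by
    have : N = (N - 2) + 2 := by omega
    conv_lhs => rw [this, pow_add]
    ring
  set m := (4 * n + 2) / 2 ^ N + 1 with hm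
  have h6 : 2 ^ N * m = 2 ^ N * ((4 * n + 2) / 2 ^ N) + 2 ^ N := by rw [hm]; ring
  have h7 := Nat.div_add_mod (4 * n + 2) (2 ^ N)
  have h8 := Nat.mod_lt (4 * n + 2) (show 0 < 2 ^ N by positivity)
  have h9 : 4 * (2 ^ (N - 2) * m) = 2 ^ N * m := by rw [h3]; ring
  have h10 : N < 2 ^ N := Nat.lt_two_pow_self
  refine ⟨2 ^ (N - 2) * m + k - n, by omega, ?_⟩
  rw [Nat.sub_zero]
  omega

/-- bounded runs of coincidence in stable tuples -/
theorem bounded_runs (hp : p ≠ 2) {s : ℕ} {u : ℕ → ℕ → Fin s → ZMod p} (hu : St u)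
    {i j : Fin s} (hij : i ≠ j) :
    ∃ M, ∀ n, ∃ t, n ≤ t ∧ t ≤ n + M ∧ u 0 (4 * t + 2) i ≠ u 0 (4 * t + 2) j := by
  by_contra hcon
  push Not at hcon
  choose n hn using hcon
  let m : ℕ → ℕ := fun N => (4 * n (2 ^ N) + 2) / 2 ^ N + 1
  have hlim := lim_ulim u m (fun N => by simp [m])
  set v := ulim u m with hv
  have hvStr : Str v := hlim.str hu.str
  have h1 : ∀ k, v 0 (4 * k + 2) i = v 0 (4 * k + 2) j := by
    intro k
    obtain ⟨N, hN1, hN2⟩ := ((ulim_spec u m 0 (4 * k + 2)).and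
      (eventually_ge_hyper (4 * k + 2))).exists
    obtain ⟨q, hq, hq'⟩ := pos_calc (n (2 ^ N)) hN2
    rw [← hv] at hN1
    rw [hN1]
    show u 0 (2 ^ (N - 0) * ((4 * n (2 ^ N) + 2) / 2 ^ N + 1) + (4 * k + 2)) i = _
    show _ = u 0 (2 ^ (N - 0) * ((4 * n (2 ^ N) + 2) / 2 ^ N + 1) + (4 * k + 2)) j
    rw [hq']
    exact hn (2 ^ N) _ (by omega) (by omega)
  have hDStr : Str (fun l n => v l n i - v l n j) := by
    intro l n
    simp only [hvStr l n, Pi.add_apply]
    ring
  have h2 : ∀ n ≥ 3, (fun l n => v l n i - v l n j) 0 n = 0 := by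
    intro n hn
    exact (local_zero hp hDStr (s := 0) (t := n + 5) (by omega)
      (fun k _ _ => by simp only [h1 k, sub_self])).2.2 n (by omega) (by omega)
  have h3 := eventually_zero hDStr h2
  obtain ⟨c, hc, hne⟩ := hu.dist i j hij
  rw [← (hu.stable v hlim).1] at hc
  obtain ⟨l, k, rfl⟩ := hc
  exact hne (sub_eq_zero.1 (h3 l (4 * k + 2) (by omega)))

/-- the density statement -/
theorem density (hp : p ≠ 2) {K : ℕ} (hK : ∀ k ≥ K, fp p (4 * k + 2) ≠ 0) {s : ℕ}
    {u : ℕ → ℕ → Fin s → ZMod p} (hu : St u) {i j : Fin s} (hij : i ≠ j) :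
    ∃ M, ∀ X, X ≤ (12 * K + 17) *
      (#{n ∈ range X | u 0 (4 * n + 2) i ≠ u 0 (4 * n + 2) j} + M) := by
  obtain ⟨M, hM⟩ := bounded_runs hp hu hij
  refine ⟨2 * M + 1, fun X => ?_⟩
  have hDStr : Str (fun l n => u l n i - u l n j) := by
    intro l n
    simp only [hu.str l n, Pi.add_apply]
    ring
  refine charging (Z := fun n => u 0 (4 * n + 2) i = u 0 (4 * n + 2) j) hM ?_ X
  intro s t hst hZ ht i' hi1 hi2 hi3
  obtain ⟨δ, hδ, h⟩ := after_run hp hDStr hst (fun k hk hk' => sub_eq_zero.2 (hZ k hk hk'))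
    (sub_ne_zero.2 ht)
  intro heq
  have h1 := h i' hi2 hi3
  simp only [heq, sub_self] at h1
  exact mul_ne_zero hδ (hK i' hi1) h1.symm

end Pool.Agent.helper41.BP
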