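import Pool.Agent.helper41.BP.Zero

/-!
The case where the class values recur with bounded gaps.
-/

namespace Pool.Agent.helper41.BP

open Filter Polynomial

variable {p : ℕ}

/-- difference operator -/
def Δ (p : ℕ) : Module.End (ZMod p) (ℕ → ZMod p) where
  toFun h := fun n => h (n + 1) - h n
  map_add' h h' := by funext n; simp only [Pi.add_apply]; ring
  map_smul' c h := by
    funext n; simp only [Pi.smul_apply, smul_eq_mul, RingHom.id_apply]; ring

theorem Δ_apply (h : ℕ → ZMod p) (n : ℕ) : Δ p h n = h (n + 1) - h n := rfl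

def gg (p k : ℕ) : ℕ → ZMod p := fun n => fp p (2 ^ k * n)

def VV (p k : ℕ) : Submodule (ZMod p) (ℕ → ZMod p) :=
  Submodule.span (ZMod p) (gg p '' {l | l < k})

theorem gg_mem {k l : ℕ} (h : l < k) : gg p l ∈ VV p k :=
  Submodule.subset_span ⟨l, h, rfl⟩

theorem VV_mono {k l : ℕ} (h : k ≤ l) : VV p k ≤ VV p l :=
  Submodule.span_mono (Set.image_mono fun _ hx => lt_of_lt_of_le hx h)

variable [Fact p.Prime]

theorem rec_fun (k i : ℕ) : (fun n => fp p (2 ^ (k + 1) * n + (i + 1))) =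
    (fun n => fp p (2 ^ (k + 1) * n + i)) + (fun n => fp p (2 ^ k * n + (i + 1) / 2)) := by
  funext n
  simp only [Pi.add_apply]
  rw [← add_assoc, fp_succ]
  congr 2
  have : 2 ^ (k + 1) * n + i + 1 = 2 * (2 ^ k * n) + (i + 1) := by rw [pow_succ]; ring
  rw [this, Nat.mul_add_div (by norm_num)]

theorem base_zero (k : ℕ) : (fun n => fp p (2 ^ k * n + 0)) - gg p k = 0 := by
  funext n
  simp only [Pi.sub_apply, add_zero, gg, sub_self, Pi.zero_apply]

theorem claimA (k : ℕ) : ∀ i, i < 2 ^ k →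
    (fun n => fp p (2 ^ k * n + i)) - gg p k ∈ VV p k := by
  induction k with
  | zero =>
    intro i hi
    have : i = 0 := by simpa using hi
    subst this
    rw [base_zero]; exact Submodule.zero_mem _
  | succ k ih =>
    intro i
    induction i with
    | zero => intro _; rw [base_zero]; exact Submodule.zero_mem _
    | succ i ih2 =>
      intro hi
      have e : (fun n => fp p (2 ^ (k + 1) * n + (i + 1))) - gg p (k + 1) =
        ((fun n => fp p (2 ^ (k + 1) * n + i)) - gg p (k + 1)) +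
          (((fun n => fp p (2 ^ k * n + (i + 1) / 2)) - gg p k) + gg p k) := by
        rw [rec_fun]; abel
      rw [e]
      refine Submodule.add_mem _ (ih2 (by omega)) (Submodule.add_mem _ ?_ (gg_mem (by omega)))
      refine VV_mono (Nat.le_succ k) (ih _ ?_)
      rw [pow_succ] at hi
      omega

theorem claimB (k : ℕ) : ∀ i, i < 2 ^ (k + 1) →
    (fun n => fp p (2 ^ (k + 1) * n + i)) - gg p (k + 1) - (i : ZMod p) • gg p k ∈ VV p k := by
  intro i
  induction i with
  | zero =>
    intro _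
    rw [base_zero, Nat.cast_zero, zero_smul, sub_zero]; exact Submodule.zero_mem _
  | succ i ih2 =>
    intro hi
    have e : (fun n => fp p (2 ^ (k + 1) * n + (i + 1))) - gg p (k + 1) -
        ((i + 1 : ℕ) : ZMod p) • gg p k =
      ((fun n => fp p (2 ^ (k + 1) * n + i)) - gg p (k + 1) - (i : ZMod p) • gg p k) +
        ((fun n => fp p (2 ^ k * n + (i + 1) / 2)) - gg p k) := by
      rw [rec_fun, Nat.cast_add, Nat.cast_one, add_smul, one_smul]; abel
    rw [e]
    refine Submodule.add_mem _ (ih2 (by omega)) (claimA k _ ?_)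
    rw [pow_succ] at hi
    omega

theorem claimC (k : ℕ) :
    Δ p (gg p (k + 1)) - Δ p (gg p k) - ((2 : ZMod p) ^ (k + 1)) • gg p k ∈ VV p k := by
  have h := claimB (p := p) k (2 ^ (k + 1) - 1) (by
    have : 0 < 2 ^ (k + 1) := by positivity
    omega)
  convert h using 1
  funext n
  simp only [Pi.sub_apply, Pi.smul_apply, Δ_apply, smul_eq_mul, gg]
  have h1 := congrFun (rec_fun (p := p) k (2 ^ (k + 1) - 1)) n
  simp only [Pi.add_apply] at h1
  have hpos : 1 ≤ 2 ^ (k + 1) := Nat.one_le_two_pow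
  have e1 : 2 ^ (k + 1) - 1 + 1 = 2 ^ (k + 1) := Nat.sub_add_cancel hpos
  have e2 : 2 ^ (k + 1) / 2 = 2 ^ k := by rw [pow_succ]; omega
  rw [e1, e2] at h1
  rw [mul_add (2 ^ (k + 1)) n 1, mul_add (2 ^ k) n 1, mul_one, mul_one, h1,
    Nat.cast_sub hpos]
  push_cast
  ring

theorem VV_pow (k : ℕ)
    (hQ : ∀ l < k, ∃ Q : (ZMod p)[X], ((Δ p) ^ l) (gg p l) = aeval (Δ p) Q (gg p 0))
    (h : ℕ → ZMod p) (hh : h ∈ VV p k) :
    ∃ P : (ZMod p)[X], ((Δ p) ^ k) h = aeval (Δ p) (X * P) (gg p 0) := by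
  induction hh using Submodule.span_induction with
  | mem x hx =>
    obtain ⟨l, hl, rfl⟩ := hx
    have hl' : l < k := hl
    obtain ⟨Q, hQ⟩ := hQ l hl'
    refine ⟨X ^ (k - l - 1) * Q, ?_⟩
    have e : k = (1 + (k - l - 1)) + l := by omega
    conv_lhs => rw [e, pow_add, Module.End.mul_apply, hQ]
    rw [← mul_assoc, ← pow_succ', map_mul, Module.End.mul_apply]
    congr 2
    simp only [map_pow, aeval_X]
    congr 1
    omega
  | zero => exact ⟨0, by simp⟩
  | add x y _ _ hx hy =>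
    obtain ⟨P, hP⟩ := hx
    obtain ⟨P', hP'⟩ := hy
    refine ⟨P + P', ?_⟩
    rw [map_add, hP, hP', mul_add, map_add, LinearMap.add_apply]
  | smul c x _ hx =>
    obtain ⟨P, hP⟩ := hx
    refine ⟨C c * P, ?_⟩
    rw [map_smul, hP]
    have : (X : (ZMod p)[X]) * (C c * P) = C c * (X * P) := by ring
    rw [this, map_mul (aeval (Δ p)) (C c), Module.End.mul_apply, aeval_C]
    simp [Module.algebraMap_end_apply]

theorem claimD (hp : p ≠ 2) (k : ℕ) : ∃ Q : (ZMod p)[X], Q.coeff 0 ≠ 0 ∧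
    ((Δ p) ^ k) (gg p k) = aeval (Δ p) Q (gg p 0) := by
  induction k using Nat.strong_induction_on with
  | _ k ih =>
    rcases k with _ | k
    · exact ⟨1, by simp, by simp⟩
    · obtain ⟨Q, hQ0, hQ⟩ := ih k (by omega)
      obtain ⟨P, hP⟩ := VV_pow k (fun l hl => by
        obtain ⟨Q, -, hQ⟩ := ih l (by omega)
        exact ⟨Q, hQ⟩) _ (claimC (p := p) k)
      refine ⟨C ((2 : ZMod p) ^ (k + 1)) * Q + X * Q + X * P, ?_, ?_⟩
      · simp only [coeff_add, mul_coeff_zero, coeff_C_zero, coeff_X_zero, zero_mul, add_zero]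
        exact mul_ne_zero (pow_ne_zero _ (two_ne hp)) hQ0
      · have e1 : ((Δ p) ^ (k + 1)) (gg p (k + 1)) = ((Δ p) ^ k) (Δ p (gg p (k + 1))) := by
          rw [pow_succ, Module.End.mul_apply]
        have e2 : ((Δ p) ^ k) (Δ p (gg p k)) = Δ p (((Δ p) ^ k) (gg p k)) := by
          rw [← Module.End.mul_apply, ← Module.End.mul_apply, ← pow_succ, ← pow_succ']
        rw [map_sub, map_sub, map_smul, e2, hQ] at hP
        rw [e1, map_add, map_add, LinearMap.add_apply, LinearMap.add_apply, ← hP,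
          map_mul (aeval (Δ p)) (C _) Q, map_mul (aeval (Δ p)) X Q, aeval_X, aeval_C,
          Module.End.mul_apply, Module.End.mul_apply, Module.algebraMap_end_apply]
        abel

theorem Δ_add_one_pow (h : ℕ → ZMod p) (i n : ℕ) : ((Δ p + 1) ^ i) h n = h (n + i) := by
  induction i generalizing n h with
  | zero => simp
  | succ i ih =>
    rw [pow_succ, Module.End.mul_apply, ih]
    simp only [LinearMap.add_apply, Pi.add_apply, Δ_apply, Module.End.one_apply]
    ring_nf

theorem claimE (P : (ZMod p)[X]) (hP : P ≠ 0) (h : ℕ → ZMod p)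
    (h0 : aeval (Δ p) P h = 0) : ∃ i j, i < j ∧ ∀ n, h (n + i) = h (n + j) := by
  set P' := P * C (P.leadingCoeff⁻¹) with hP'
  have hmon : P'.Monic := monic_mul_leadingCoeff_inv hP
  have h0' : aeval (Δ p) P' h = 0 := by
    rw [hP', mul_comm, map_mul, Module.End.mul_apply, h0, map_zero]
  let T : ℕ → (Fin P'.natDegree → ZMod p) :=
    fun n i => (((X + 1 : (ZMod p)[X]) ^ n) %ₘ P').coeff i
  obtain ⟨i, j, hij, hT⟩ := Finite.exists_ne_map_eq_of_infinite T
  wlog hlt : i < j generalizing i j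
  · exact this j i hij.symm hT.symm (by omega)
  have hcoeff : ((X + 1 : (ZMod p)[X]) ^ i) %ₘ P' = ((X + 1 : (ZMod p)[X]) ^ j) %ₘ P' := by
    ext m
    rcases Nat.lt_or_ge m P'.natDegree with hm | hm
    · exact congrFun hT ⟨m, hm⟩
    · have hdeg : ∀ Q : (ZMod p)[X], (Q %ₘ P').coeff m = 0 := by
        intro Q
        apply coeff_eq_zero_of_degree_lt
        calc (Q %ₘ P').degree < P'.degree := degree_modByMonic_lt _ hmon
          _ = (P'.natDegree : WithBot ℕ) := degree_eq_natDegree hmon.ne_zero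
          _ ≤ (m : WithBot ℕ) := by exact_mod_cast hm
      rw [hdeg, hdeg]
  have hdvd : P' ∣ (X + 1 : (ZMod p)[X]) ^ i - (X + 1 : (ZMod p)[X]) ^ j := by
    rw [← modByMonic_eq_zero_iff_dvd hmon, sub_modByMonic, hcoeff, sub_self]
  obtain ⟨Q, hQ⟩ := hdvd
  refine ⟨i, j, hlt, fun n => ?_⟩
  have h1 : aeval (Δ p) ((X + 1 : (ZMod p)[X]) ^ i - (X + 1 : (ZMod p)[X]) ^ j) h = 0 := by
    rw [hQ, mul_comm, map_mul, Module.End.mul_apply, h0', map_zero]
  simp only [map_sub, map_pow, map_add, aeval_X, map_one, LinearMap.sub_apply] at h1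
  have h2 := congrFun h1 n
  simp only [Pi.sub_apply, Δ_add_one_pow, Pi.zero_apply] at h2
  exact sub_eq_zero.1 h2

/-- the final contradiction of Lemma X -/
theorem no_coincidence (hp : p ≠ 2) (hz : ∀ K, ∃ n ≥ K, fp p n ≠ 0) {a b : ℕ} (hab : a < b)
    (h : ∀ n, fp p (2 ^ a * n) = fp p (2 ^ b * n)) : False := by
  obtain ⟨Qa, -, hQa⟩ := claimD hp a
  obtain ⟨Qb, hQb0, hQb⟩ := claimD hp b
  have e : gg p b = gg p a := by funext n; exact (h n).symm
  have e1 : ((Δ p) ^ b) (gg p a) = aeval (Δ p) (X ^ (b - a) * Qa) (gg p 0) := by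
    have : b = (b - a) + a := by omega
    conv_lhs => rw [this, pow_add, Module.End.mul_apply, hQa]
    rw [map_mul, Module.End.mul_apply, map_pow, aeval_X]
  rw [e, e1] at hQb
  have h0 : aeval (Δ p) (Qb - X ^ (b - a) * Qa) (gg p 0) = 0 := by
    rw [map_sub, LinearMap.sub_apply, hQb, sub_self]
  have hne : Qb - X ^ (b - a) * Qa ≠ 0 := by
    intro h
    have := congrArg (fun q => q.coeff 0) h
    simp only [coeff_sub, mul_coeff_zero, coeff_zero] at this
    have hx : ((X : (ZMod p)[X]) ^ (b - a)).coeff 0 = 0 := by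
      rw [coeff_X_pow]; simp; omega
    rw [hx, zero_mul, sub_zero] at this
    exact hQb0 this
  obtain ⟨i, j, hij, hper⟩ := claimE _ hne _ h0
  apply not_periodic (str_fp p) (fun _ K => hz K) (j - i) (by omega) 0 i
  intro n hn
  have := hper (n - i)
  simp only [gg, pow_zero, one_mul] at this
  have e1 : n - i + i = n := by omega
  have e2 : n - i + j = n + (j - i) := by omega
  rw [e1, e2] at this
  exact this.symm

theorem lemmaX (hp : p ≠ 2) (hz : ∀ k, fp p (4 * k + 2) ≠ 0)
    (hR : ∃ R, ∀ n, ∀ v, (∃ k, fp p (4 * k + 2) = v) → ∃ i ≤ R, fp p (4 * (n + i) + 2) = v) :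
    False := by
  obtain ⟨R, hR⟩ := hR
  have claim1 : ∀ m m', m % 2 = m' % 2 → (∀ i ≤ 2 * R + 1, fp p (m + i) = fp p (m' + i)) →
      fp p (2 * m) = fp p (2 * m') := by
    intro m m' hmm h
    have h1 : ∀ j ≤ 4 * R + 3, fp p (2 * m' + j) = fp p (2 * m + j) +
        (fp p (2 * m') - fp p (2 * m)) := by
      intro j
      induction j with
      | zero => intro _; simp
      | succ j ih =>
        intro hj
        rw [← add_assoc, ← add_assoc, fp_succ, fp_succ, ih (by omega)]
        have e1 : (2 * m' + j + 1) / 2 = m' + (j + 1) / 2 := by omega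
        have e2 : (2 * m + j + 1) / 2 = m + (j + 1) / 2 := by omega
        rw [e1, e2, h _ (by omega)]
        ring
    by_contra hne
    have hc : fp p (2 * m') - fp p (2 * m) ≠ 0 := sub_ne_zero.2 (Ne.symm hne)
    set c := fp p (2 * m') - fp p (2 * m)
    have hS : ∀ v, (∃ k, fp p (4 * k + 2) = v) → ∃ k, fp p (4 * k + 2) = v + c := by
      intro v hv
      obtain ⟨i, hi, hiv⟩ := hR (m / 2) v hv
      refine ⟨m' / 2 + i, ?_⟩
      have e1 : 4 * (m / 2 + i) + 2 = 2 * m + (4 * i + 2 - 2 * (m % 2)) := by omega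
      have e2 : 4 * (m' / 2 + i) + 2 = 2 * m' + (4 * i + 2 - 2 * (m % 2)) := by omega
      rw [e2, h1 _ (by omega), ← e1, hiv]
    have hS' : ∀ j : ℕ, ∃ k, fp p (4 * k + 2) = fp p 2 + j * c := by
      intro j
      induction j with
      | zero => exact ⟨0, by simp⟩
      | succ j ih =>
        obtain ⟨k, hk⟩ := hS _ ih
        exact ⟨k, by rw [hk]; push_cast; ring⟩
    obtain ⟨k, hk⟩ := hS' (-(fp p 2) / c).val
    apply hz k
    rw [hk, ZMod.natCast_zmod_val]
    field_simp
    ring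
  -- windows
  let M := 2 * R + 1
  let W : ℕ → ℕ → (Fin (M + 1) → ZMod p) := fun k n i => fp p (2 ^ k * n + i)
  have claim2 : ∀ k n k' n', 1 ≤ k → 1 ≤ k' → W k n = W k' n' → W (k + 1) n = W (k' + 1) n' := by
    intro k n k' n' hk hk' h
    have h0 : ∀ i ≤ M, fp p (2 ^ k * n + i) = fp p (2 ^ k' * n' + i) :=
      fun i hi => congrFun h ⟨i, by omega⟩
    have par : ∀ k n : ℕ, 1 ≤ k → (2 ^ k * n) % 2 = 0 := by
      intro k n hk
      obtain ⟨j, rfl⟩ : ∃ j, k = j + 1 := ⟨k - 1, by omega⟩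
      rw [pow_succ, mul_comm (2 ^ j) 2, mul_assoc]
      exact Nat.mul_mod_right _ _
    have h1 := claim1 (2 ^ k * n) (2 ^ k' * n') (by rw [par k n hk, par k' n' hk']) h0
    have h2 : ∀ j ≤ M, fp p (2 ^ (k + 1) * n + j) = fp p (2 ^ (k' + 1) * n' + j) := by
      intro j
      induction j with
      | zero =>
        intro _
        have e1 : 2 ^ (k + 1) * n + 0 = 2 * (2 ^ k * n) := by rw [pow_succ]; ring
        have e2 : 2 ^ (k' + 1) * n' + 0 = 2 * (2 ^ k' * n') := by rw [pow_succ]; ring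
        rw [e1, e2, h1]
      | succ j ih =>
        intro hj
        have e1 := congrFun (rec_fun (p := p) k j) n
        have e2 := congrFun (rec_fun (p := p) k' j) n'
        simp only [Pi.add_apply] at e1 e2
        rw [e1, e2, ih (by omega), h0 _ (by omega)]
    funext i
    exact h2 i (by have := i.2; omega)
  classical
  let H : (Fin (M + 1) → ZMod p) → (Fin (M + 1) → ZMod p) := fun w =>
    if h : ∃ q : ℕ × ℕ, 1 ≤ q.1 ∧ W q.1 q.2 = w then W (h.choose.1 + 1) h.choose.2 else w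
  have hH : ∀ k n, 1 ≤ k → W (k + 1) n = H (W k n) := by
    intro k n hk
    have h : ∃ q : ℕ × ℕ, 1 ≤ q.1 ∧ W q.1 q.2 = W k n := ⟨(k, n), hk, rfl⟩
    simp only [H, dif_pos h]
    exact (claim2 _ _ _ _ h.choose_spec.1 hk h.choose_spec.2).symm
  have hH' : ∀ j n, W (1 + j) n = H^[j] (W 1 n) := by
    intro j n
    induction j with
    | zero => rfl
    | succ j ih => rw [← add_assoc, hH _ _ (by omega), ih, Function.iterate_succ_apply']
  obtain ⟨i, j, hij, hT⟩ := Finite.exists_ne_map_eq_of_infinite (fun j : ℕ => H^[j])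
  wlog hlt : i < j generalizing i j
  · exact this j i hij.symm hT.symm (by omega)
  apply no_coincidence hp (fun K => ⟨4 * K + 2, by omega, hz K⟩) (a := 1 + i) (b := 1 + j)
    (by omega)
  intro n
  have h1 : W (1 + i) n = W (1 + j) n := by
    rw [hH', hH']
    exact congrFun hT _
  have := congrFun h1 ⟨0, by omega⟩
  simpa [W] using this

end Pool.Agent.helper41.BP
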