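import Pool.Agent.helper41.BP.Dens

/-!
The chain and the main theorem.
-/

namespace Pool.Agent.helper41.BP

open Filter Finset

variable {p : ℕ}

def restr (n : ℕ) (x : ℕ → ZMod p) : Fin (n + 1) → ZMod p := fun i => x i

theorem restr_snoc (n : ℕ) (x : ℕ → ZMod p) :
    restr (n + 1) x = (Fin.snoc (restr n x) (x (n + 1)) : Fin (n + 1 + 1) → ZMod p) := by
  funext i
  refine Fin.lastCases ?_ (fun i => ?_) i
  · simp [restr]
  · simp [restr]

variable [Fact p.Prime]

theorem exists_chain (hp : p ≠ 2) (hf : RZ (fun (_ : ℕ) n => fp p n)) :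
    ∃ (u : (n : ℕ) → ℕ → ℕ → Fin (n + 1) → ZMod p) (A : ℕ → ℕ → ZMod p),
      (∀ n, St (u n)) ∧ (∀ n, ∃ i ≤ n, A i (n + 1) ≠ 0) ∧
      ∀ n x, G A n x → Om (u n) (restr n x) := by
  -- base
  obtain ⟨u0, hu0, hu0S⟩ := exists_stable (fun (_ : ℕ) n => (fun _ => fp p n : Fin 1 → ZMod p))
  have hb : St u0 := by
    refine ⟨hu0.str ?_, hu0S, ?_, ?_⟩
    · intro l n
      funext i
      simp only [Pi.add_apply, fp_succ]
    · intro i j hij
      exact absurd (Subsingleton.elim i j) hij
    · intro i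
      exact hf.lim (hu0.map (fun c => c i))
  have hstep : ∀ n (q : {u : ℕ → ℕ → Fin (n + 1) → ZMod p // St u}),
      ∃ (α : Fin (n + 1) → ZMod p) (q' : {u : ℕ → ℕ → Fin (n + 1 + 1) → ZMod p // St u}),
        α ≠ 0 ∧
        (∀ x, Om q.1 x → Om q'.1 (Fin.snoc x 0 : Fin (n + 1 + 1) → ZMod p) ∧
        Om q'.1 (Fin.snoc x (-(x ⬝ᵥ α)) : Fin (n + 1 + 1) → ZMod p)) ∧
        Om q'.1 (Fin.snoc 0 1 : Fin (n + 1 + 1) → ZMod p) := by
    rintro n ⟨u, hu⟩
    obtain ⟨α, u', h1, h2, h3, h4⟩ := step hp hf (Nat.succ_pos n) u hu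
    exact ⟨α, ⟨u', h2⟩, h1, h3, h4⟩
  choose α nxt hα hG hnew using hstep
  let ch : (n : ℕ) → {u : ℕ → ℕ → Fin (n + 1) → ZMod p // St u} := fun n =>
    Nat.rec ⟨u0, hb⟩ (fun n q => nxt n q) n
  have hch : ∀ n, ch (n + 1) = nxt n (ch n) := fun n => rfl
  let A : ℕ → ℕ → ZMod p := fun i l =>
    match l with
    | 0 => 0
    | (l + 1) => if h : i < l + 1 then α l (ch l) ⟨i, h⟩ else 0
  have hA : ∀ n (i : Fin (n + 1)), A i (n + 1) = α n (ch n) i := by
    intro n i
    simp only [A, dif_pos i.2]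
  refine ⟨fun n => (ch n).1, A, fun n => (ch n).2, ?_, ?_⟩
  · intro n
    by_contra hcon
    push Not at hcon
    apply hα n (ch n)
    funext i
    rw [← hA]
    exact hcon i (by have := i.2; omega)
  · have hzero : ∀ n, restr (p := p) (n + 1) (Pi.single (n + 1) 1) = Fin.snoc 0 1 := by
      intro n
      rw [restr_snoc]
      congr 1
      · funext i
        have : (i : ℕ) ≠ n + 1 := by have := i.2; omega
        simp [restr, Pi.single_eq_of_ne this]
      · simp
    intro n x hx
    induction hx with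
    | new n =>
      rcases n with _ | n
      · intro l k
        have := hb.zf 0 l k
        show restr 0 (Pi.single 0 1) ⬝ᵥ u0 l (4 * k + 2) ≠ 0
        simpa [restr, dotProduct] using this
      · show Om (ch (n + 1)).1 _
        rw [hzero, hch]
        exact hnew n (ch n)
    | skip n x hx ih =>
      show Om (ch (n + 1)).1 _
      rw [restr_snoc, hx.supp (n + 1) (by omega), hch]
      exact (hG n (ch n) _ ih).1
    | use n x hx ih =>
      show Om (ch (n + 1)).1 _
      have e1 : restr n (x - (∑ i ∈ range (n + 1), x i * A i (n + 1)) • Pi.single (n + 1) 1) =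
          restr n x := by
        funext i
        have : (i : ℕ) ≠ n + 1 := by have := i.2; omega
        simp [restr, Pi.single_eq_of_ne this]
      have e2 : (x - (∑ i ∈ range (n + 1), x i * A i (n + 1)) • Pi.single (n + 1) 1 :
          ℕ → ZMod p) (n + 1) = -(restr n x ⬝ᵥ α n (ch n)) := by
        simp only [Pi.sub_apply, Pi.smul_apply, smul_eq_mul, hx.supp (n + 1) (by omega),
          Pi.single_eq_same, mul_one, zero_sub, dotProduct, restr]
        rw [Finset.sum_range]
        simp only [hA]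
      rw [restr_snoc, e1, e2, hch]
      exact (hG n (ch n) _ ih).2

/-- extension of a vector by zero -/
def ext0 {n : ℕ} (c : Fin (n + 1) → ZMod p) : ℕ → ZMod p :=
  fun i => if h : i < n + 1 then c ⟨i, h⟩ else 0

theorem NV_of {A : ℕ → ℕ → ZMod p} {n : ℕ} {u : ℕ → ℕ → Fin (n + 1) → ZMod p}
    (h : ∀ x, G A n x → Om u (restr n x)) {c : Fin (n + 1) → ZMod p} (hc : c ∈ Cs u) :
    NV A n (ext0 c) := by
  intro x hx
  have h1 := Om_iff.1 (h x hx) c hc
  convert h1 using 1
  unfold val dotProduct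
  rw [Finset.sum_range]
  apply Finset.sum_congr rfl
  intro i _
  simp only [restr, ext0, dif_pos i.2]

theorem main (hp : p ≠ 2) (K0 : ℕ) : ∃ k ≥ K0, fp p (4 * k + 2) = 0 := by
  by_contra hcon
  push Not at hcon
  have hf : RZ (fun (_ : ℕ) n => fp p n) := ⟨K0, fun _ k hk => hcon k hk⟩
  obtain ⟨u, A, hu, hA, hG⟩ := exists_chain hp hf
  rcases comb hA with ⟨n, hn⟩ | ⟨j, hj, hjr⟩
  · obtain ⟨c, hc⟩ := Cs_nonempty (u n)
    exact hn _ (NV_of (hG n) hc)
  · set r := 2 * p * (12 * K0 + 17) + 1 with hr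
    have hjle : ∀ k ≤ r, j k < j r + 1 := fun k hk =>
      Nat.lt_succ_of_le (hj.monotone hk)
    have hM : ∀ k : ℕ, ∃ M, k < r → ∀ X, X ≤ (12 * K0 + 17) *
        (#{n ∈ range X | ext0 (u (j r) 0 (4 * n + 2)) (j k) ≠
          ext0 (u (j r) 0 (4 * n + 2)) (j (k + 1))} + M) := by
      intro k
      by_cases hk : k < r
      · have hne : (⟨j k, hjle k hk.le⟩ : Fin (j r + 1)) ≠ ⟨j (k + 1), hjle (k + 1) hk⟩ := by
          intro h
          have : j k = j (k + 1) := congrArg Fin.val h
          have := hj (show k < k + 1 by omega)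
          omega
        obtain ⟨M, hM⟩ := density hp hcon (hu (j r)) hne
        refine ⟨M, fun _ X => ?_⟩
        have h1 := hM X
        simp only [ext0, hjle k hk.le, hjle (k + 1) hk, dif_pos]
        exact h1
      · exact ⟨0, fun h => absurd h hk⟩
    choose M hM using hM
    set T := ∑ k ∈ range r, M k with hT
    obtain ⟨X, hX⟩ : ∃ X, X = (12 * K0 + 17) * T + 1 := ⟨_, rfl⟩
    have h1 : ∑ k ∈ range r, X ≤ ∑ k ∈ range r, (12 * K0 + 17) *
        (#{n ∈ range X | ext0 (u (j r) 0 (4 * n + 2)) (j k) ≠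
          ext0 (u (j r) 0 (4 * n + 2)) (j (k + 1))} + M k) :=
      Finset.sum_le_sum fun k hk => hM k (Finset.mem_range.1 hk) X
    rw [← Finset.mul_sum, Finset.sum_add_distrib, Finset.sum_const, Finset.card_range,
      smul_eq_mul, ← hT] at h1
    have h2 : ∑ k ∈ range r, #{n ∈ range X | ext0 (u (j r) 0 (4 * n + 2)) (j k) ≠
          ext0 (u (j r) 0 (4 * n + 2)) (j (k + 1))} ≤ 2 * p * X := by
      simp only [Finset.card_filter]
      rw [Finset.sum_comm]
      calc _ ≤ ∑ n ∈ range X, 2 * p := by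
            apply Finset.sum_le_sum
            intro n _
            rw [← Finset.card_filter]
            exact hjr r _ (NV_of (hG (j r)) ⟨0, n, rfl⟩)
        _ = 2 * p * X := by
            rw [Finset.sum_const, Finset.card_range, smul_eq_mul, mul_comm]
    have h3 := Nat.mul_le_mul_left (12 * K0 + 17) (Nat.add_le_add_right h2 T)
    have h4 : (12 * K0 + 17) * (2 * p * X + T) + 1 = (r - 1) * X + X := by
      rw [hr, Nat.add_sub_cancel, mul_add, hX]
      ring
    have h5 : r * X = (r - 1) * X + X := by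
      rw [hr, Nat.add_sub_cancel]; ring
    omega

end Pool.Agent.helper41.BP
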