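import Pool.Agent.helper41.BP.LemmaX

/-!
The step: from a stable tuple of length `s` to one of length `s + 1`.
-/

namespace Pool.Agent.helper41.BP

open Filter

variable {p : ℕ}

def ZF (g : ℕ → ℕ → ZMod p) : Prop := ∀ l k, g l (4 * k + 2) ≠ 0

def RZ (g : ℕ → ℕ → ZMod p) : Prop := ∃ K, ∀ l, ∀ k ≥ K, g l (4 * k + 2) ≠ 0

theorem RZ.lim {g h : ℕ → ℕ → ZMod p} (hg : RZ g) (hl : Lim g h) : ZF h := by
  obtain ⟨K, hK⟩ := hg
  intro l k
  obtain ⟨k', hk', e⟩ := hl.class_pos l k K
  rw [e]
  exact hK l k' hk'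

theorem ZF.rz {g : ℕ → ℕ → ZMod p} (hg : ZF g) : RZ g := ⟨0, fun l k _ => hg l k⟩

/-- `x` is a functional nonvanishing on the class values of `u` -/
def Om {s : ℕ} (u : ℕ → ℕ → Fin s → ZMod p) (x : Fin s → ZMod p) : Prop :=
  ZF (fun l n => x ⬝ᵥ u l n)

theorem Om_iff {s : ℕ} {u : ℕ → ℕ → Fin s → ZMod p} {x : Fin s → ZMod p} :
    Om u x ↔ ∀ c ∈ Cs u, x ⬝ᵥ c ≠ 0 := by
  constructor
  · rintro h c ⟨l, k, rfl⟩
    exact h l k
  · intro h l k
    exact h _ ⟨l, k, rfl⟩

theorem Om_lim {s : ℕ} {u v : ℕ → ℕ → Fin s → ZMod p} (hu : Stable u) (h : Lim u v)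
    {x : Fin s → ZMod p} : Om v x ↔ Om u x := by
  rw [Om_iff, Om_iff, (hu v h).1]

structure St {s : ℕ} (u : ℕ → ℕ → Fin s → ZMod p) : Prop where
  str : Str u
  stable : Stable u
  dist : ∀ i j, i ≠ j → ∃ c ∈ Cs u, c i ≠ c j
  zf : ∀ i, ZF (fun l n => u l n i)

theorem Cs_nonempty {V : Type*} (u : ℕ → ℕ → V) : (Cs u).Nonempty := ⟨_, 0, 0, rfl⟩

theorem dead_next {V : Type*} [AddMonoid V] {D : ℕ → ℕ → V} (hD : Str D) {N m : ℕ}
    (h0 : ∀ l ≤ N, D l (2 ^ (N - l) * m) = 0) :
    ∀ l ≤ N, D l (2 ^ (N - l) * (m + 1)) = D N (m + 1) := by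
  intro l hl
  have h2 := shift_next (A := fun l k => D l (2 ^ (N - l) * m + k)) (N := N)
    (fun l hl n => hD.shift N m l hl n) (fun l hl => h0 l hl) (N - l) (by omega)
  have e1 : N - (N - l) = l := by omega
  simp only [e1, Nat.sub_self, pow_zero, one_mul] at h2
  rw [mul_add, mul_one]
  exact h2

theorem dead_inside {V : Type*} [AddMonoid V] {D : ℕ → ℕ → V} (hD : Str D) {N m : ℕ}
    (h0 : ∀ l ≤ N, D l (2 ^ (N - l) * m) = 0) :
    ∀ l ≤ N, ∀ k < 2 ^ (N - l), D l (2 ^ (N - l) * m + k) = 0 := by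
  intro l hl k hk
  exact shift_zero (A := fun l k => D l (2 ^ (N - l) * m + k)) (N := N)
    (fun l hl n => hD.shift N m l hl n) (fun l hl => h0 l hl) k l hl hk

theorem ulim_map {V W : Type*} [Finite V] [Finite W] (u : ℕ → ℕ → V) (m : ℕ → ℕ) (π : V → W)
    (l n : ℕ) : ulim (fun l n => π (u l n)) m l n = π (ulim u m l n) := by
  obtain ⟨N, h1, h2⟩ := ((ulim_spec u m l n).and (ulim_spec (fun l n => π (u l n)) m l n)).exists
  rw [h2, h1]

/-- limits at the right end of dead stretches -/
theorem right_end {V : Type*} [AddMonoid V] [Finite V] {D : ℕ → ℕ → V} (hD : Str D) (m : ℕ → ℕ)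
    (h0 : ∀ N, ∀ l ≤ N, D l (2 ^ (N - l) * m N) = 0) (h1 : ∀ N, D N (m N + 1) ≠ 0) :
    (∀ l, ulim D (fun N => m N + 1) l 0 = ulim D (fun N => m N + 1) 0 0) ∧
      ulim D (fun N => m N + 1) 0 0 ≠ 0 := by
  constructor
  · intro l
    obtain ⟨N, ⟨hN1, hN2⟩, hN3⟩ := (((ulim_spec D (fun N => m N + 1) l 0).and
      (ulim_spec D (fun N => m N + 1) 0 0)).and (eventually_ge_hyper l)).exists
    rw [hN1, hN2, add_zero, add_zero, dead_next hD (h0 N) l hN3, dead_next hD (h0 N) 0 (by omega)]
  · obtain ⟨N, hN1⟩ := (ulim_spec D (fun N => m N + 1) 0 0).exists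
    rw [hN1, add_zero, dead_next hD (h0 N) 0 (by omega)]
    exact h1 N

variable [Fact p.Prime]

theorem str_eq_mul {D : ℕ → ℕ → ZMod p} (hD : Str D) {δ : ZMod p} (h0 : ∀ l, D l 0 = δ) :
    ∀ l n, D l n = δ * fp p n := by
  intro l n
  have := str_zero (D := fun l n => D l n - δ * fp p n) (by
    intro l n
    simp only [hD l n, fp_succ]
    ring) (by intro l; simp [h0, fp_zero]) n l
  exact sub_eq_zero.1 this

theorem snoc_dot {s : ℕ} (x : Fin s → ZMod p) (t : ZMod p) (c : Fin (s + 1) → ZMod p) :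
    (Fin.snoc x t : Fin (s + 1) → ZMod p) ⬝ᵥ c =
      x ⬝ᵥ (fun i => c i.castSucc) + t * c (Fin.last s) := by
  simp [dotProduct, Fin.sum_univ_castSucc]

/-- exceptional case: `f` coincides with a coordinate of a limit of a stable tuple -/
theorem exceptional (hp : p ≠ 2) {s : ℕ} {y : ℕ → ℕ → Fin s → ZMod p} (hy : Stable y)
    (i : Fin s) (hz : ZF (fun l n => y l n i)) (h : ∀ n, 1 ≤ n → fp p n = y 0 n i) : False := by
  apply lemmaX (p := p) hp
  · intro k
    rw [h _ (by omega)]
    exact hz 0 k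
  · have key : ∀ v, ∃ R, (∃ k, fp p (4 * k + 2) = v) → ∀ n, ∃ j ≤ R,
        fp p (4 * (n + j) + 2) = v := by
      intro v
      by_contra hcon
      push Not at hcon
      have hk : ∃ k, fp p (4 * k + 2) = v := (hcon 0).1
      obtain ⟨k0, hk0⟩ := hk
      have h2 : ∀ N, ∃ n, ∀ j ≤ 2 ^ N, fp p (4 * (n + j) + 2) ≠ v := fun N => (hcon (2 ^ N)).2
      choose n hn using h2
      let m : ℕ → ℕ := fun N => (4 * n N + 2) / 2 ^ N + 1
      have hlim := lim_ulim y m (fun N => by simp [m])
      have hB := (hy _ hlim).2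
      have hmem : y 0 (4 * k0 + 2) ∈ Bs (ulim y m) := by
        rw [hB]; exact ⟨k0, rfl⟩
      obtain ⟨k, hk⟩ := hmem
      obtain ⟨N, hN1, hN2⟩ := ((ulim_spec y m 0 (4 * k + 2)).and
        (eventually_ge_hyper (4 * k + 2))).exists
      have h3 : (2 : ℕ) ^ N = 4 * 2 ^ (N - 2) := by
        have : N = (N - 2) + 2 := by omega
        conv_lhs => rw [this, pow_add]
        ring
      have h4 : 2 ^ (N - 0) * m N + (4 * k + 2) = 4 * (2 ^ (N - 2) * m N + k) + 2 := by
        rw [Nat.sub_zero, h3]; ring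
      have h5 : y 0 (4 * (2 ^ (N - 2) * m N + k) + 2) i = v := by
        rw [← h4, ← hN1, hk, ← h _ (by omega), hk0]
      rw [← h _ (by omega)] at h5
      have h6 : 2 ^ N * m N = 2 ^ N * ((4 * n N + 2) / 2 ^ N) + 2 ^ N := by
        simp only [m]; ring
      have h7 := Nat.div_add_mod (4 * n N + 2) (2 ^ N)
      have h8 := Nat.mod_lt (4 * n N + 2) (show 0 < 2 ^ N by positivity)
      have h9 : 4 * (2 ^ (N - 2) * m N) = 2 ^ N * m N := by rw [h3]; ring
      have h10 : N < 2 ^ N := Nat.lt_two_pow_self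
      have h11 : 2 ^ (N - 2) * m N + k = n N + (2 ^ (N - 2) * m N + k - n N) := by omega
      rw [h11] at h5
      exact hn N _ (by omega) h5
    choose R hR using key
    refine ⟨∑ v, R v, fun n v hv => ?_⟩
    obtain ⟨j, hj, hj'⟩ := hR v hv n
    exact ⟨j, hj.trans (Finset.single_le_sum (f := R) (fun _ _ => Nat.zero_le _)
      (Finset.mem_univ v)), hj'⟩

theorem step (hp : p ≠ 2) (hf : RZ (fun (_ : ℕ) n => fp p n)) {s : ℕ} (hs0 : 0 < s)
    (u : ℕ → ℕ → Fin s → ZMod p) (hs : St u) :
    ∃ (α : Fin s → ZMod p) (u' : ℕ → ℕ → Fin (s + 1) → ZMod p), α ≠ 0 ∧ St u' ∧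
      (∀ x, Om u x → Om u' (Fin.snoc x 0 : Fin (s + 1) → ZMod p) ∧
        Om u' (Fin.snoc x (-(x ⬝ᵥ α)) : Fin (s + 1) → ZMod p)) ∧
      Om u' (Fin.snoc 0 1 : Fin (s + 1) → ZMod p) := by
  classical
  -- the set of admissible pairs
  let P : Set ((ℕ → ℕ → Fin s → ZMod p) × (Fin s → ZMod p)) := {q | Lim u q.1 ∧ q.2 ≠ 0 ∧
    ∀ x, Om u x → RZ (fun l n => x ⬝ᵥ q.1 l n - (x ⬝ᵥ q.2) * fp p n)}
  let Zf : (ℕ → ℕ → Fin s → ZMod p) → Set ((Fin s → ZMod p) × ZMod p) := fun y =>
    {q | RZ (fun l n => q.1 ⬝ᵥ y l n - q.2 * fp p n)}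
  have hP : P.Nonempty := by
    obtain ⟨y, y', α, hy, hy', hα, h0⟩ := exists_branch hs.str (by
      intro l K
      refine ⟨4 * K + 2, by omega, fun h => ?_⟩
      exact hs.zf ⟨0, hs0⟩ l K (congrFun h _))
    refine ⟨(y, α), hy, hα, fun x hx => ZF.rz ?_⟩
    have hxy' : ZF (fun l n => x ⬝ᵥ y' l n) := (Om_lim hs.stable hy').2 hx
    have heq : ∀ l n, y l n = y' l n + fp p n • α := by
      intro l n
      have := str_zero (D := fun l n => y l n - (y' l n + fp p n • α)) (by
        intro l n
        simp only [hy.str hs.str l n, hy'.str hs.str l n, fp_succ, add_smul]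
        abel) (by intro l; simp [h0, fp_zero]) n l
      exact sub_eq_zero.1 this
    intro l k
    have h1 := hxy' l k
    simp only [heq, dotProduct_add, dotProduct_smul, smul_eq_mul] at h1 ⊢
    convert h1 using 1
    ring
  -- maximal choice
  let S : Set ℕ := {k | ∃ q ∈ P, (Zf q.1).ncard = k}
  have hS1 : S.Nonempty := by
    obtain ⟨q, hq⟩ := hP
    exact ⟨_, q, hq, rfl⟩
  have hS2 : BddAbove S := by
    refine ⟨(Set.univ : Set ((Fin s → ZMod p) × ZMod p)).ncard, ?_⟩
    rintro k ⟨q, -, rfl⟩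
    exact Set.ncard_le_ncard (Set.subset_univ _) (Set.toFinite _)
  obtain ⟨⟨y, α⟩, ⟨hy, hα, hyα⟩, hcard⟩ := Nat.sSup_mem hS1 hS2
  have hmax : ∀ q ∈ P, (Zf q.1).ncard ≤ (Zf y).ncard := by
    intro q hq
    have hcard' : (Zf y).ncard = sSup S := hcard
    rw [hcard']
    exact le_csSup hS2 ⟨q, hq, rfl⟩
  simp only at hy hα hyα
  have hySt : Stable y := hs.stable.lim hy
  have hyStr : Str y := hy.str hs.str
  let U : ℕ → ℕ → Fin (s + 1) → ZMod p := fun l n => Fin.snoc (y l n) (fp p n)
  have hUc : ∀ l n (i : Fin s), U l n i.castSucc = y l n i := by intro l n i; simp [U]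
  have hUl : ∀ l n, U l n (Fin.last s) = fp p n := by intro l n; simp [U]
  have hUStr : Str U := by
    intro l n
    funext j
    refine Fin.lastCases ?_ (fun i => ?_) j
    · simp only [Pi.add_apply, hUl, fp_succ]
    · simp only [Pi.add_apply, hUc, hyStr l n]
  obtain ⟨u', hu', hu'St⟩ := exists_stable U
  -- projections of limits of U
  have projy : ∀ {v : ℕ → ℕ → Fin (s + 1) → ZMod p}, Lim U v →
      Lim y (fun l n i => v l n i.castSucc) := by
    intro v hv
    have := hv.map (fun c (i : Fin s) => c i.castSucc)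
    simpa only [hUc] using this
  have projf : ∀ {v : ℕ → ℕ → Fin (s + 1) → ZMod p}, Lim U v →
      Lim (fun _ n => fp p n) (fun l n => v l n (Fin.last s)) := by
    intro v hv
    have := hv.map (fun c => c (Fin.last s))
    simpa only [hUl] using this
  have projg : ∀ {v : ℕ → ℕ → Fin (s + 1) → ZMod p}, Lim U v → ∀ (x : Fin s → ZMod p) t,
      RZ (fun l n => x ⬝ᵥ y l n - t * fp p n) →
      ZF (fun l n => x ⬝ᵥ (fun i => v l n i.castSucc) - t * v l n (Fin.last s)) := by
    intro v hv x t h
    have := hv.map (fun c => x ⬝ᵥ (fun i => c i.castSucc) - t * c (Fin.last s))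
    simp only [hUc, hUl] at this
    exact h.lim this
  have hφ : ZF (fun l n => u' l n (Fin.last s)) := hf.lim (projf hu')
  have hw : Lim y (fun l n i => u' l n i.castSucc) := projy hu'
  -- key claim
  have key : ∀ i : Fin s, ∃ c ∈ Cs u', c i.castSucc ≠ c (Fin.last s) := by
    intro i
    by_contra hcon
    push Not at hcon
    have hcls : ∀ l k, u' l (4 * k + 2) (Fin.last s) - u' l (4 * k + 2) i.castSucc = 0 := by
      intro l k
      rw [hcon _ ⟨l, k, rfl⟩, sub_self]
    have hu'Str : Str u' := hu'.str hUStr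
    have hD'Str : Str (fun l n => u' l n (Fin.last s) - u' l n i.castSucc) := by
      intro l n
      simp only [hu'Str l n, Pi.add_apply]
      ring
    have hD' := class_zero hp hD'Str hcls
    let D : ℕ → ℕ → ZMod p := fun l n => fp p n - y l n i
    have hDStr : Str D := by
      intro l n
      simp only [D, fp_succ, hyStr l n, Pi.add_apply]
      ring
    have hDU : ∀ l n, D l n = U l n (Fin.last s) - U l n i.castSucc := by
      intro l n; rw [hUl, hUc]
    have hDlim : Lim D (fun l n => u' l n (Fin.last s) - u' l n i.castSucc) := by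
      have := hu'.map (fun c => c (Fin.last s) - c i.castSucc)
      simpa only [← hDU] using this
    have hdead : ∀ N, ∃ m, 1 ≤ m ∧ ∀ l ≤ N, D l (2 ^ (N - l) * m) = 0 := by
      intro N
      obtain ⟨m, hm, h1⟩ := hDlim (N + 2 ^ N)
      refine ⟨2 ^ (N + 2 ^ N - N) * m + 1, by omega, fun l hl => ?_⟩
      have h2 : 2 ^ (N - l) ≤ 2 ^ N := Nat.pow_le_pow_right (by norm_num) (by omega)
      have h3 : u' l (2 ^ (N - l)) (Fin.last s) - u' l (2 ^ (N - l)) i.castSucc =
          D l (2 ^ (N + 2 ^ N - l) * m + 2 ^ (N - l)) :=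
        h1 l (hl.trans (Nat.le_add_right _ _)) (2 ^ (N - l)) (h2.trans (Nat.le_add_left _ _))
      rw [hD' l _ Nat.one_le_two_pow, two_pow_split (N := N) _ hl (Nat.le_add_right _ _)] at h3
      rw [h3, mul_add, mul_one, mul_assoc]
    by_cases hA : ∀ N, ∃ m, 1 ≤ m ∧ (∀ l ≤ N, D l (2 ^ (N - l) * m) = 0) ∧ D N (m + 1) ≠ 0
    · choose m hm1 hm0 hmne using hA
      -- the limit at right ends
      set V := ulim U (fun N => m N + 1) with hV
      have hVlim : Lim U V := lim_ulim U _ (fun N => by omega)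
      obtain ⟨hr1, hr2⟩ := right_end hDStr m hm0 hmne
      set δ := ulim D (fun N => m N + 1) 0 0 with hδ
      have hDV : ∀ l n, ulim D (fun N => m N + 1) l n = V l n (Fin.last s) - V l n i.castSucc := by
        intro l n
        have e : D = fun l n => (fun c : Fin (s + 1) → ZMod p => c (Fin.last s) - c i.castSucc)
          (U l n) := by
          funext l n; exact hDU l n
        rw [e]
        exact ulim_map U _ (fun c : Fin (s + 1) → ZMod p => c (Fin.last s) - c i.castSucc) l n
      have hVStr : Str V := hVlim.str hUStr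
      have hb : ∀ l n, V l n (Fin.last s) = V l n i.castSucc + δ * fp p n := by
        intro l n
        have := str_eq_mul (D := fun l n => V l n (Fin.last s) - V l n i.castSucc) (by
          intro l n
          simp only [hVStr l n, Pi.add_apply]
          ring) (δ := δ) (by intro l; simp only [← hDV]; exact hr1 l) l n
        rw [← this]; ring
      let ys : ℕ → ℕ → Fin s → ZMod p := fun l n j => V l n j.castSucc
      have hys : Lim y ys := projy hVlim
      let Θ : (Fin s → ZMod p) × ZMod p → (Fin s → ZMod p) × ZMod p := fun q =>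
        (q.1 - q.2 • Pi.single i 1, q.2 * δ)
      have hΘ : ∀ q ∈ Zf y, Θ q ∈ Zf ys := by
        rintro ⟨x, t⟩ hq
        have h1 := projg hVlim x t hq
        show RZ (fun l n => (x - t • Pi.single i 1) ⬝ᵥ ys l n - (t * δ) * fp p n)
        refine ZF.rz fun l k => ?_
        have h2 := h1 l k
        simp only [hb] at h2
        convert h2 using 1
        simp only [sub_dotProduct, smul_dotProduct, single_dotProduct, one_mul,
          smul_eq_mul, ys]
        ring
      have hΘinj : Function.Injective Θ := by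
        rintro ⟨x, t⟩ ⟨x', t'⟩ h
        simp only [Θ, Prod.mk.injEq] at h
        obtain ⟨h1, h2⟩ := h
        have h3 : t = t' := mul_right_cancel₀ hr2 h2
        subst h3
        have h4 : x = x' := sub_left_injective h1
        rw [h4]
      have h01 : ((0 : Fin s → ZMod p), (1 : ZMod p)) ∈ Zf ys := by
        obtain ⟨K, hK⟩ := hf
        refine ⟨K, fun l k hk => ?_⟩
        simp only [zero_dotProduct, one_mul, zero_sub]
        exact neg_ne_zero.2 (hK l k hk)
      have h01' : ∀ q ∈ Zf y, Θ q ≠ ((0 : Fin s → ZMod p), (1 : ZMod p)) := by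
        rintro ⟨x, t⟩ hq he
        simp only [Θ, Prod.mk.injEq] at he
        obtain ⟨he1, he2⟩ := he
        obtain ⟨K, hK⟩ := hq
        obtain ⟨m0, hm0', hdead0⟩ := hdead (K + 2)
        have h1 := hK 0 (2 ^ K * m0) (by
          calc K ≤ 2 ^ K := (Nat.le_succ _).trans (le_two_pow K)
            _ ≤ 2 ^ K * m0 := Nat.le_mul_of_pos_right _ hm0')
        apply h1
        have h2 := dead_inside hDStr hdead0 0 (by omega) 2 (by
          rw [Nat.sub_zero, pow_add]
          have : 0 < 2 ^ K := by positivity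
          omega)
        have e : 2 ^ (K + 2 - 0) * m0 + 2 = 4 * (2 ^ K * m0) + 2 := by
          rw [Nat.sub_zero, pow_add]; ring
        rw [e] at h2
        rw [sub_eq_zero.1 he1]
        simp only [smul_dotProduct, single_dotProduct, one_mul, smul_eq_mul]
        simp only [D] at h2
        rw [sub_eq_zero.1 h2]
        ring
      have hlt : (Zf y).ncard < (Zf ys).ncard := by
        have h1 : (Zf y).ncard ≤ (Zf ys \ {((0 : Fin s → ZMod p), (1 : ZMod p))}).ncard :=
          Set.ncard_le_ncard_of_injOn Θ (fun q hq => ⟨hΘ q hq, h01' q hq⟩)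
            (hΘinj.injOn) (Set.toFinite _)
        have h2 := Set.ncard_sdiff_singleton_lt_of_mem h01 (Set.toFinite _)
        omega
      -- further limit for ρ
      let u'' := ulim u' (fun _ => 1)
      have hu'' : Lim u' u'' := lim_ulim _ _ (fun _ => le_refl _)
      have hUu'' : Lim U u'' := hu'.trans hu''
      have heq'' : ∀ l n, u'' l n (Fin.last s) = u'' l n i.castSucc := by
        intro l n
        obtain ⟨m', hm', h1⟩ := hu'' (l + n)
        have h2 := h1 l (by omega) n (by omega)
        rw [h2]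
        have : 0 < 2 ^ (l + n - l) * m' := Nat.mul_pos (by positivity) hm'
        exact sub_eq_zero.1 (hD' l _ (by omega))
      have hρ : ∀ x, Om u x → Om u (x - (x ⬝ᵥ α) • Pi.single i 1) := by
        intro x hx
        have h1 := projg hUu'' x (x ⬝ᵥ α) (hyα x hx)
        have h2 : Lim u (fun l n j => u'' l n j.castSucc) := hy.trans (projy hUu'')
        rw [← Om_lim hs.stable h2]
        intro l k
        have h3 := h1 l k
        simp only [heq''] at h3
        convert h3 using 1
        simp only [sub_dotProduct, smul_dotProduct, single_dotProduct, one_mul, smul_eq_mul]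
      have hei : Om u (Pi.single i 1) := by
        intro l k
        simp only [single_dotProduct, one_mul]
        exact hs.zf i l k
      have hαi : 1 - α i ≠ 0 := by
        have h1 := hρ _ hei 0 0
        simp only [single_dotProduct, one_mul, sub_dotProduct, smul_dotProduct,
          smul_eq_mul] at h1
        intro h
        apply h1
        have : u 0 (4 * 0 + 2) i - α i * u 0 (4 * 0 + 2) i = (1 - α i) * u 0 (4 * 0 + 2) i := by
          ring
        rw [this, h, zero_mul]
      let ρ : {x // Om u x} → {x // Om u x} := fun x =>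
        ⟨x.1 - (x.1 ⬝ᵥ α) • Pi.single i 1, hρ x.1 x.2⟩
      have hρinj : Function.Injective ρ := by
        rintro ⟨x, hx⟩ ⟨x', hx'⟩ h
        have h1 : x - (x ⬝ᵥ α) • Pi.single i 1 = x' - (x' ⬝ᵥ α) • Pi.single i 1 :=
          congrArg Subtype.val h
        have h2 := congrArg (fun z => z ⬝ᵥ α) h1
        simp only [sub_dotProduct, smul_dotProduct, single_dotProduct, one_mul,
          smul_eq_mul] at h2
        have h3 : (x ⬝ᵥ α - x' ⬝ᵥ α) * (1 - α i) = 0 := by linear_combination h2
        have h4 : x ⬝ᵥ α = x' ⬝ᵥ α := sub_eq_zero.1 ((mul_eq_zero.1 h3).resolve_right hαi)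
        rw [h4] at h1
        exact Subtype.ext (sub_left_injective h1)
      have hρsurj := Finite.surjective_of_injective hρinj
      have hmem : (ys, (δ / (1 - α i)) • α) ∈ P := by
        refine ⟨hy.trans hys, smul_ne_zero (div_ne_zero hr2 hαi) hα, fun x' hx' => ?_⟩
        obtain ⟨⟨x, hx⟩, hxx'⟩ := hρsurj ⟨x', hx'⟩
        have h1 : x - (x ⬝ᵥ α) • Pi.single i 1 = x' := congrArg Subtype.val hxx'
        have h2 : (x, x ⬝ᵥ α) ∈ Zf y := hyα x hx
        have h3 := hΘ _ h2
        simp only [Θ, h1] at h3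
        have h4 : x' ⬝ᵥ ((δ / (1 - α i)) • α) = (x ⬝ᵥ α) * δ := by
          rw [← h1, dotProduct_smul, smul_eq_mul]
          simp only [sub_dotProduct, smul_dotProduct, single_dotProduct, one_mul,
            smul_eq_mul]
          field_simp
        simp only [h4]
        exact h3
      have := hmax _ hmem
      simp only at this
      omega
    · push Not at hA
      obtain ⟨N, hN⟩ := hA
      obtain ⟨m0, hm0, hd0⟩ := hdead N
      have hd : ∀ j, ∀ l ≤ N, D l (2 ^ (N - l) * (m0 + j)) = 0 := by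
        intro j
        induction j with
        | zero => exact hd0
        | succ j ih =>
          intro l hl
          rw [← add_assoc, dead_next hDStr ih l hl]
          exact hN (m0 + j) (by omega) ih
      have hev : ∀ n ≥ 2 ^ N * m0, D 0 n = 0 := by
        intro n hn
        have h1 := Nat.div_add_mod n (2 ^ N)
        have h2 : m0 ≤ n / 2 ^ N := (Nat.le_div_iff_mul_le (by positivity)).2 (by
          rw [mul_comm]; exact hn)
        have h3 := dead_inside hDStr (hd (n / 2 ^ N - m0)) 0 (by omega) (n % 2 ^ N)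
          (Nat.mod_lt _ (by positivity))
        have e : m0 + (n / 2 ^ N - m0) = n / 2 ^ N := by omega
        rw [e, Nat.sub_zero, h1] at h3
        exact h3
      have hall := eventually_zero hDStr hev
      apply exceptional hp hySt i
      · have := hy.map (fun c => c i)
        exact (hs.zf i).rz.lim this
      · intro n hn
        exact sub_eq_zero.1 (hall 0 n hn)
  refine ⟨α, u', hα, ⟨hu'.str hUStr, hu'St, ?_, ?_⟩, ?_, ?_⟩
  · -- dist
    have hCw : Cs (fun l n (i : Fin s) => u' l n i.castSucc) = Cs u :=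
      (hs.stable _ (hy.trans hw)).1
    intro i j
    refine Fin.lastCases ?_ (fun i => ?_) i
    · refine Fin.lastCases ?_ (fun j => ?_) j
      · intro h; exact absurd rfl h
      · intro _
        obtain ⟨c, hc, hne⟩ := key j
        exact ⟨c, hc, hne.symm⟩
    · refine Fin.lastCases ?_ (fun j => ?_) j
      · intro _; exact key i
      · intro h
        have hij : i ≠ j := fun h' => h (by rw [h'])
        obtain ⟨c, hc, hne⟩ := hs.dist i j hij
        rw [← hCw] at hc
        obtain ⟨l, k, rfl⟩ := hc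
        exact ⟨_, ⟨l, k, rfl⟩, hne⟩
  · intro i
    refine Fin.lastCases ?_ (fun i => ?_) i
    · exact hφ
    · have h1 : Lim u (fun l n (i : Fin s) => u' l n i.castSucc) := hy.trans hw
      exact (hs.zf i).rz.lim (h1.map (fun c => c i))
  · intro x hx
    constructor
    · intro l k
      simp only [snoc_dot, zero_mul, add_zero]
      exact (Om_lim hs.stable (hy.trans hw)).2 hx l k
    · intro l k
      have h1 := projg hu' x (x ⬝ᵥ α) (hyα x hx) l k
      simp only [snoc_dot]
      convert h1 using 1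
      ring
  · intro l k
    simp only [snoc_dot, zero_dotProduct, one_mul, zero_add]
    exact hφ l k

end Pool.Agent.helper41.BP
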