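import Pool.Agent.helper41.BP.Branch

/-!
Zeros on the class of positions `≡ 2 mod 4`.
-/

namespace Pool.Agent.helper41.BP

open Filter

variable {p : ℕ} [Fact p.Prime]

theorem two_ne (hp : p ≠ 2) : (2 : ZMod p) ≠ 0 := by
  have : ((2 : ℕ) : ZMod p) ≠ 0 := by
    rw [Ne, ZMod.natCast_eq_zero_iff]
    intro h
    exact hp ((Nat.prime_dvd_prime_iff_eq (Fact.out) Nat.prime_two).1 h)
  exact_mod_cast this

theorem four_ne (hp : p ≠ 2) : (4 : ZMod p) ≠ 0 := by
  have : (4 : ZMod p) = 2 * 2 := by norm_num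
  rw [this]
  exact mul_ne_zero (two_ne hp) (two_ne hp)

theorem local_zero (hp : p ≠ 2) {D : ℕ → ℕ → ZMod p} (hD : Str D) {s t : ℕ} (hst : s + 5 ≤ t)
    (h : ∀ k, s ≤ k → k < t → D 0 (4 * k + 2) = 0) :
    (∀ k, s + 1 ≤ k → k < t → D 2 k = 0) ∧
    (∀ n, 2 * s + 2 ≤ n → n < 2 * t → D 1 n = 0) ∧
    (∀ n, 4 * s + 3 ≤ n → n < 4 * t → D 0 n = 0) := by
  have h4 := four_ne hp
  have E (l n m : ℕ) (hm : (n + 1) / 2 = m) : D l (n + 1) = D l n + D (l + 1) m := by
    rw [hD, hm]
  have h1 : ∀ k, s ≤ k → k + 1 < t → D 1 (2 * k + 2) = 0 := by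
    intro k hk hk'
    have e1 := E 0 (4 * k + 2) (2 * k + 1) (by omega)
    have e2 := E 0 (4 * k + 3) (2 * k + 2) (by omega)
    have e3 := E 0 (4 * k + 4) (2 * k + 2) (by omega)
    have e4 := E 0 (4 * k + 5) (2 * k + 3) (by omega)
    have e5 := E 1 (2 * k + 1) (k + 1) (by omega)
    have e6 := E 1 (2 * k + 2) (k + 1) (by omega)
    have e7 := h k hk (by omega)
    have e8 := h (k + 1) (by omega) hk'
    have e9 : 4 * (k + 1) + 2 = 4 * k + 5 + 1 := by ring
    rw [e9] at e8
    have : (4 : ZMod p) * D 1 (2 * k + 2) = 0 := by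
      simp only [Nat.add_assoc, Nat.reduceAdd] at *
      linear_combination e8 - e4 - e3 - e2 - e1 - e7 + e5 - e6
    exact (mul_eq_zero.1 this).resolve_left h4
  have h1' : ∀ k, s + 1 ≤ k → k < t → D 1 (2 * k) = 0 := by
    intro k hk hk'
    have := h1 (k - 1) (by omega) (by omega)
    have e : 2 * (k - 1) + 2 = 2 * k := by omega
    rwa [e] at this
  have h2 : ∀ k, s + 1 ≤ k → k + 1 < t → D 2 (k + 1) = - D 2 k := by
    intro k hk hk'
    have e1 := E 1 (2 * k) k (by omega)
    have e2 := E 1 (2 * k + 1) (k + 1) (by omega)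
    have e3 := h1' k hk (by omega)
    have e4 := h1 k (by omega) hk'
    simp only [Nat.add_assoc, Nat.reduceAdd] at *
    linear_combination e4 - e2 - e1 - e3
  have h2' : ∀ j, s + 1 + j < t → D 2 (s + 1 + j) = (-1) ^ j * D 2 (s + 1) := by
    intro j
    induction j with
    | zero => intro _; simp
    | succ j ih =>
      intro hj
      rw [← add_assoc, h2 _ (by omega) (by omega), ih (by omega), pow_succ]
      ring
  have h3 : ∃ k, s + 1 ≤ k ∧ k < t ∧ D 2 k = 0 := by
    obtain ⟨k, hk1, hk2, hk3⟩ : ∃ k, s + 1 ≤ k ∧ k ≤ s + 2 ∧ k % 2 = 1 := by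
      rcases Nat.mod_two_eq_zero_or_one (s + 1) with h | h
      · exact ⟨s + 2, by omega, by omega, by omega⟩
      · exact ⟨s + 1, by omega, by omega, by omega⟩
    refine ⟨k, hk1, by omega, ?_⟩
    have e1 := E 2 k ((k + 1) / 2) rfl
    have e2 := E 2 (k + 1) ((k + 1) / 2) (by omega)
    have e3 := h2 k hk1 (by omega)
    have e4 := h2 (k + 1) (by omega) (by omega)
    have : (4 : ZMod p) * D 2 k = 0 := by
      simp only [Nat.add_assoc, Nat.reduceAdd] at *
      linear_combination e2 - e1 - e4 + 3 * e3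
    exact (mul_eq_zero.1 this).resolve_left h4
  obtain ⟨k0, hk1, hk2, hk3⟩ := h3
  have h5 : D 2 (s + 1) = 0 := by
    have := h2' (k0 - (s + 1)) (by omega)
    have e : s + 1 + (k0 - (s + 1)) = k0 := by omega
    rw [e, hk3] at this
    rcases mul_eq_zero.1 this.symm with h | h
    · exact absurd h (by simp)
    · exact h
  have h6 : ∀ k, s + 1 ≤ k → k < t → D 2 k = 0 := by
    intro k hk hk'
    have := h2' (k - (s + 1)) (by omega)
    have e : s + 1 + (k - (s + 1)) = k := by omega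
    rw [e, h5, mul_zero] at this
    exact this
  have h7 : ∀ n, 2 * s + 2 ≤ n → n < 2 * t → D 1 n = 0 := by
    intro n hn hn'
    rcases Nat.even_or_odd' n with ⟨k, hk | hk⟩
    · rw [hk]; exact h1' k (by omega) (by omega)
    · rw [hk, E 1 (2 * k) k (by omega), h1' k (by omega) (by omega),
        h6 k (by omega) (by omega), add_zero]
  refine ⟨h6, h7, ?_⟩
  have h8 : ∀ j, 4 * s + 3 + j < 4 * t → D 0 (4 * s + 3 + j) = D 0 (4 * s + 3) := by
    intro j
    induction j with
    | zero => intro _; rfl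
    | succ j ih =>
      intro hj
      rw [← add_assoc, hD, ih (by omega), h7 _ (by omega) (by omega), add_zero]
  have h9 : D 0 (4 * s + 3) = 0 := by
    rw [← h8 3 (by omega)]
    exact h (s + 1) (by omega) (by omega)
  intro n hn hn'
  have := h8 (n - (4 * s + 3)) (by omega)
  have e : 4 * s + 3 + (n - (4 * s + 3)) = n := by omega
  rw [e, h9] at this
  exact this

theorem Str.tail {V : Type*} [Add V] {D : ℕ → ℕ → V} (hD : Str D) (j : ℕ) :
    Str (fun l n => D (j + l) n) := fun l n => hD (j + l) n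

theorem up_zero {V : Type*} [AddMonoid V] {D : ℕ → ℕ → V} (hD : Str D) {l : ℕ}
    (h : ∀ n, 1 ≤ n → D (l + 1) n = 0) {n0 : ℕ} (hn0 : 1 ≤ n0) (h0 : D l n0 = 0) :
    ∀ n, 1 ≤ n → D l n = 0 := by
  have h1 : ∀ j, D l (1 + j) = D l 1 := by
    intro j
    induction j with
    | zero => rfl
    | succ j ih => rw [← add_assoc, hD, ih, h _ (by omega), add_zero]
  have h2 : D l 1 = 0 := by
    rw [← h1 (n0 - 1)]
    have : 1 + (n0 - 1) = n0 := by omega
    rw [this, h0]
  intro n hn
  have : 1 + (n - 1) = n := by omega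
  rw [← this, h1, h2]

/-- class-zero at all levels implies zero at all positive positions -/
theorem class_zero (hp : p ≠ 2) {D : ℕ → ℕ → ZMod p} (hD : Str D)
    (h : ∀ l k, D l (4 * k + 2) = 0) : ∀ l n, 1 ≤ n → D l n = 0 := by
  intro l
  have h2 : ∀ n, 1 ≤ n → D (l + 2) n = 0 := by
    intro n hn
    exact (local_zero hp (hD.tail l) (s := 0) (t := n + 5) (by omega)
      (fun k _ _ => h (l + 0) k)).1 n (by omega) (by omega)
  have h1 := up_zero hD h2 (n0 := 2) (by omega) (h (l + 1) 0)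
  exact up_zero hD h1 (n0 := 2) (by omega) (h l 0)

/-- eventually zero at level `0` implies zero at all positive positions of all levels -/
theorem eventually_zero {V : Type*} [AddCommGroup V] {D : ℕ → ℕ → V} (hD : Str D) {n0 : ℕ}
    (h : ∀ n ≥ n0, D 0 n = 0) : ∀ l n, 1 ≤ n → D l n = 0 := by
  have h1 : ∀ l, ∀ n ≥ n0 / 2 ^ l + 2, D l n = 0 := by
    intro l
    induction l with
    | zero => intro n hn; exact h n (by simp at hn; omega)
    | succ l ih =>
      intro n hn
      have e : n0 / 2 ^ (l + 1) = n0 / 2 ^ l / 2 := by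
        rw [pow_succ, Nat.div_div_eq_div_mul]
      rw [e] at hn
      generalize n0 / 2 ^ l = c at hn ih
      have h1 := hD l (2 * n - 1)
      have e1 : 2 * n - 1 + 1 = 2 * n := by omega
      have e2 : 2 * n / 2 = n := by omega
      rw [e1, e2, ih (2 * n) (by omega), ih (2 * n - 1) (by omega), zero_add] at h1
      exact h1.symm
  have h2 : ∀ l ≥ n0, ∀ n ≥ 2, D l n = 0 := by
    intro l hl n hn
    apply h1 l
    have : n0 / 2 ^ l = 0 := by
      apply Nat.div_eq_of_lt
      calc n0 ≤ l := hl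
        _ < 2 ^ l := Nat.lt_two_pow_self
    omega
  have h3 : ∀ l ≥ n0 + 1, ∀ n ≥ 1, D l n = 0 := by
    intro l hl n hn
    rcases Nat.lt_or_ge 1 n with h | h
    · exact h2 l (by omega) n h
    · have e : n = 1 := by omega
      subst e
      obtain ⟨l, rfl⟩ : ∃ l', l = l' + 1 := ⟨l - 1, by omega⟩
      have h1 := hD l 2
      have e2 : (2 + 1) / 2 = 1 := rfl
      rw [h2 l (by omega) _ (by omega), h2 l (by omega) _ (by omega), e2, zero_add] at h1
      exact h1.symm
  have h4 : ∀ j, ∀ l, l + j = n0 + 1 → ∀ n, 1 ≤ n → D l n = 0 := by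
    intro j
    induction j with
    | zero => intro l hl n hn; exact h3 l (by omega) n hn
    | succ j ih =>
      intro l hl
      exact up_zero hD (ih (l + 1) (by omega)) (n0 := n0 / 2 ^ l + 2) (Nat.le_add_left 1 _)
        (h1 l _ (le_refl _))
  intro l n hn
  rcases Nat.lt_or_ge l (n0 + 1) with h | h
  · exact h4 (n0 + 1 - l) l (by omega) n hn
  · exact h3 l h n hn

end Pool.Agent.helper41.BP
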